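import Pool.Agent.H18.LQ.Defs

/-! ROW Bc (about 80 lines).  Size of Bohr sets.  `bohr`, `mem_bohr`, `nd_val_eq` are in `Defs`;
`nd y = |y - round y|` is `Pool.Agent.H33.QB.nd`.

PROOF.  Colour `x : ZMod N` by the function `f x : ZMod N → ℕ`,
`f x γ = if γ ∈ Γ then m * (γ * x).val / N else 0` (natural division); for `γ ∈ Γ` it is `< m`
since `(γ * x).val < N`.  The set of possible colours, `Fintype.piFinset (fun γ => if γ ∈ Γ then
Finset.range m else {0})`, has `m ^ Γ.card` elements (`Fintype.card_piFinset`, `Finset.prod_ite`..);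
alternatively use colours in `Γ → Fin m`, `Fintype.card_fun`, `Fintype.card_fin`,
`Fintype.card_coe`.  Pigeonhole (`Finset.card_le_mul_card_image_of_maps_to` or
`Finset.exists_lt_card_fiber_of_mul_lt_card_of_maps_to`, by contradiction): if every fibre had less
than `N / m ^ Γ.card` elements ..., so there is a fibre `T` with `N ≤ m ^ Γ.card * T.card`; (`N ≥ 1`
gives that `T` is nonempty); fix `t₀ ∈ T`.  The map `x ↦ x - t₀` is injective from `T` to
`bohr Γ (1 / m)`: for `γ ∈ Γ` let `u = (γ * x).val`, `v = (γ * t₀).val` and `j` the common value of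
`m * u / N = m * v / N`; then `j N ≤ m u < (j + 1) N`, the same for `v`, so `|m u - m v| < N` and
`|(u - v) / N| < 1 / m`.  And `((u - v : ℤ) : ZMod N) = γ * (x - t₀)`, so by `nd_val_eq`
`nd ((γ * (x - t₀)).val / N) = nd ((u - v) / N) ≤ |(u - v) / N| ≤ 1 / m`; here
`nd y ≤ |y|` is `round_le y 0`. -/

set_option autoImplicit false

open Finset
open scoped Pointwise

namespace Pool.Agent.H18.LQ

private lemma Bc_fib {N : ℕ} [NeZero N] (m : ℕ) (hm : 0 < m) (a b : ZMod N)
    (h : m * a.val / N = m * b.val / N) :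
    Pool.Agent.H33.QB.nd (((a - b).val : ℝ) / (N : ℝ)) ≤ 1 / (m : ℝ) := by
  have hN : 0 < N := Nat.pos_of_ne_zero (NeZero.ne N)
  have hNr : (0 : ℝ) < N := by exact_mod_cast hN
  have hmr : (0 : ℝ) < m := by exact_mod_cast hm
  rw [nd_val_eq (a - b) ((a.val : ℤ) - (b.val : ℤ)) (by push_cast; simp)]
  have h0 : Pool.Agent.H33.QB.nd (((((a.val : ℤ) - (b.val : ℤ)) : ℤ) : ℝ) / (N : ℝ)) ≤
      |((((a.val : ℤ) - (b.val : ℤ)) : ℤ) : ℝ) / (N : ℝ)| := by
    unfold Pool.Agent.H33.QB.nd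
    have h1 := round_le (((((a.val : ℤ) - (b.val : ℤ)) : ℤ) : ℝ) / (N : ℝ)) 0
    rwa [Int.cast_zero, sub_zero] at h1
  refine h0.trans ?_
  have h1 := Nat.div_add_mod (m * a.val) N
  have h2 := Nat.div_add_mod (m * b.val) N
  have h3 := Nat.mod_lt (m * a.val) hN
  have h4 := Nat.mod_lt (m * b.val) hN
  rw [h] at h1
  have h5 : (m : ℝ) * a.val = N * ((m * b.val / N : ℕ) : ℝ) + ((m * a.val % N : ℕ) : ℝ) := by
    exact_mod_cast h1.symm
  have h6 : (m : ℝ) * b.val = N * ((m * b.val / N : ℕ) : ℝ) + ((m * b.val % N : ℕ) : ℝ) := by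
    exact_mod_cast h2.symm
  have h7 : ((m * a.val % N : ℕ) : ℝ) < N := by exact_mod_cast h3
  have h8 : ((m * b.val % N : ℕ) : ℝ) < N := by exact_mod_cast h4
  have h9 : (0 : ℝ) ≤ ((m * a.val % N : ℕ) : ℝ) := Nat.cast_nonneg _
  have h10 : (0 : ℝ) ≤ ((m * b.val % N : ℕ) : ℝ) := Nat.cast_nonneg _
  push_cast
  rw [abs_div, abs_of_pos hNr, div_le_div_iff₀ hNr hmr, one_mul]
  have h11 : |(a.val : ℝ) - (b.val : ℝ)| * m = |(m : ℝ) * a.val - m * b.val| := by
    rw [← mul_sub, abs_mul, abs_of_pos hmr, mul_comm]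
  rw [h11, abs_le]
  constructor <;> linarith

theorem bohr_card {N : ℕ} [NeZero N] (Γ : Finset (ZMod N)) (m : ℕ) (hm : 0 < m) :
    N ≤ m ^ Γ.card * (bohr Γ (1 / (m : ℝ))).card := by
  have hN : 0 < N := Nat.pos_of_ne_zero (NeZero.ne N)
  have hlt : ∀ y : ZMod N, m * y.val / N < m := by
    intro y
    rw [Nat.div_lt_iff_lt_mul hN]
    exact Nat.mul_lt_mul_of_pos_left (ZMod.val_lt y) hm
  set f : ZMod N → (Γ → Fin m) := fun x γ => ⟨m * ((γ : ZMod N) * x).val / N, hlt _⟩ with hf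
  have hfib : ∀ b ∈ (Finset.univ : Finset (ZMod N)).image f,
      ((Finset.univ : Finset (ZMod N)).filter (fun x => f x = b)).card ≤
        (bohr Γ (1 / (m : ℝ))).card := by
    intro b hb
    obtain ⟨t, _, ht⟩ := Finset.mem_image.mp hb
    refine Finset.card_le_card_of_injOn (fun x => x - t) ?_ ?_
    · intro x hx
      have hx' : f x = b := by simpa using hx
      rw [Finset.mem_coe, mem_bohr]
      intro γ hγ
      rw [mul_sub]
      apply Bc_fib m hm
      have h1 : f x = f t := hx'.trans ht.symm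
      have h2 := congrFun h1 ⟨γ, hγ⟩
      exact congrArg Fin.val h2
    · intro x _ y _ hxy
      exact sub_left_injective hxy
  have h1 := Finset.card_le_mul_card_image (Finset.univ : Finset (ZMod N)) _ hfib
  rw [Finset.card_univ, ZMod.card] at h1
  have h2 : ((Finset.univ : Finset (ZMod N)).image f).card ≤ m ^ Γ.card := by
    refine (Finset.card_le_univ _).trans ?_
    rw [Fintype.card_fun, Fintype.card_fin, Fintype.card_coe]
  calc N ≤ (bohr Γ (1 / (m : ℝ))).card * ((Finset.univ : Finset (ZMod N)).image f).card := h1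
    _ ≤ (bohr Γ (1 / (m : ℝ))).card * m ^ Γ.card := Nat.mul_le_mul_left _ h2
    _ = _ := mul_comm _ _

end Pool.Agent.H18.LQ
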