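import Pool.Agent.H18.LQ.Cr

/-! ROW Lf (about 150 lines).  From `n X` of bounded size relative to `X` to a Bohr set in `2 n X`;
uses only the statement of `criterion` (row Cr).

PROOF.  `S = n • X`, `σ = unif X` (`Pool.Agent.H18.unif`, `IsPr` by `unif_nonneg`, `sum_unif`),
`G j = (fun u => cnv σ u)^[j] 1_S` where `1_S z = if z ∈ S then 1 else 0`, `F = G n`.  Lemmas on
`cnv` (`cnv ν u x = ∑ s, ν s * u (x - s)`), `wft`, `Rep` are in `Pool/Agent/H18/Bohr.lean`,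
`Level.lean`, `Quad.lean`.
(1) `0 ≤ G j z ≤ 1` by induction (`cnv_nonneg`, `cnv_le_one`).
(2) `F 0 = 1`: by induction on `j ≤ n`, `G j x = 1` for all `x ∈ (n - j) • X`: for `j = 0` clear;
    `G (j+1) x = ∑ s, σ s * G j (x - s)`, for `s` with `σ s ≠ 0`, `s ∈ X` so `-s ∈ X` (as `-X = X`)
    and `x - s ∈ (n - j - 1) • X + X = (n - j) • X`, so the sum is `∑ σ s = 1`.  Take `j = n`,
    `x = 0 ∈ 0 • X`.
(3) if `G j x ≠ 0` then `x ∈ (n + j) • X`, by induction: `G (j+1) x ≠ 0` gives `s ∈ X` with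
    `G j (x - s) ≠ 0`, `x = (x - s) + s ∈ (n + j) • X + X`.  For `j = n`: `F x ≠ 0` gives
    `x ∈ (2 * n) • X`.
(4) Fourier: `Rep 1_S (fun γ => wft 1_S γ / N)` by `rep_inv`, and by `rep_cnv` and induction
    `Rep (G j) (fun γ => wft 1_S γ / N * (wft σ γ) ^ j)`.  Let `c` be the coefficients for `j = n`.
(5) tail: for `‖wft σ γ‖ < 1 / 2`:
    `‖c γ‖ ≤ ‖wft 1_S γ‖ / N * ‖wft σ γ‖ * (1 / 2) ^ (n - 1)`  (here `n ≥ 1`).  So the tail sum is at
    most `(1/2)^(n-1) / N * ∑ γ, ‖wft 1_S γ‖ * ‖wft σ γ‖`, and by Cauchy-Schwarz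
    (`Finset.sum_mul_sq_le_sq_mul_sq`)
    `(∑ ‖wft 1_S γ‖ * ‖wft σ γ‖)^2 ≤ (∑ ‖wft 1_S γ‖^2) * (∑ ‖wft σ γ‖^2) = (N * |S|) * (N / |X|)`
    by `sum_wft_unif_sq` (`∑ γ, ‖wft (unif A) γ‖^2 = N / |A|`), used for `A = X` and for `A = S` with
    `1_S = |S| * unif S`, i.e. `wft 1_S γ = |S| * wft (unif S) γ`.  Hence
    `(tail)^2 ≤ (1/4)^(n-1) * |S| / |X| = 4 * (1/4)^n * |S| / |X| ≤ 4 / 16384 = (1/64)^2` by the
    hypothesis `hn`; `abs_le_of_sq_le_sq` or `pow_le_pow_left` gives tail `≤ 1/64`.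
(6) `criterion σ _ F c _ _ _` gives `Γ`; `entT (unif X) = log |X|` (`ent_unif`); for `x` in the Bohr
    set `F x ≥ F 0 - 1 / 4 > 0`, so `x ∈ (2 * n) • X` by (3). -/

set_option autoImplicit false

open Finset ComplexConjugate
open scoped Pointwise

namespace Pool.Agent.H18.LQ

open Pool.Agent.H18

/-- the iterated averages of the indicator of `S` -/
noncomputable def LfG {N : ℕ} [NeZero N] (X S : Finset (ZMod N)) : ℕ → ZMod N → ℝ
  | 0 => fun z => if z ∈ S then 1 else 0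
  | (j + 1) => cnv (unif X) (LfG X S j)

lemma Lf_bd {N : ℕ} [NeZero N] (X S : Finset (ZMod N)) (hX : X.Nonempty) (j : ℕ) (z : ZMod N) :
    0 ≤ LfG X S j z ∧ LfG X S j z ≤ 1 := by
  induction j generalizing z with
  | zero =>
    show 0 ≤ (if z ∈ S then (1 : ℝ) else 0) ∧ (if z ∈ S then (1 : ℝ) else 0) ≤ 1
    split_ifs <;> norm_num
  | succ j ih =>
    exact ⟨cnv_nonneg _ _ (unif_nonneg X) (fun x => (ih x).1) z,
      cnv_le_one _ _ (unif_nonneg X) (sum_unif X hX) (fun x => (ih x).2) z⟩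

lemma Lf_step {N : ℕ} [NeZero N] (X S : Finset (ZMod N)) (j : ℕ) (x : ZMod N) :
    LfG X S (j + 1) x = ∑ s ∈ X, (X.card : ℝ)⁻¹ * LfG X S j (x - s) := by
  rw [← sum_unif_mul X (fun s => LfG X S j (x - s))]
  rfl

lemma Lf_one {N : ℕ} [NeZero N] (X : Finset (ZMod N)) (h0 : (0 : ZMod N) ∈ X) (hneg : -X = X)
    (n j : ℕ) (hj : j ≤ n) (x : ZMod N) (hx : x ∈ (n - j) • X) : LfG X (n • X) j x = 1 := by
  have hc : (X.card : ℝ) ≠ 0 := by
    have : 0 < X.card := Finset.card_pos.2 ⟨0, h0⟩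
    exact_mod_cast this.ne'
  induction j generalizing x with
  | zero =>
    rw [Nat.sub_zero] at hx
    exact if_pos hx
  | succ j ih =>
    rw [Lf_step]
    have h1 : ∀ s ∈ X, (X.card : ℝ)⁻¹ * LfG X (n • X) j (x - s) = (X.card : ℝ)⁻¹ := by
      intro s hs
      have hs' : -s ∈ X := by
        rw [← hneg, Finset.mem_neg', neg_neg]
        exact hs
      have h2 : x - s ∈ (n - j) • X := by
        have e : n - j = (n - (j + 1)) + 1 := by omega
        rw [e, succ_nsmul, sub_eq_add_neg]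
        exact Finset.add_mem_add hx hs'
      rw [ih (by omega) (x - s) h2, mul_one]
    rw [Finset.sum_congr rfl h1, Finset.sum_const, nsmul_eq_mul, mul_inv_cancel₀ hc]

lemma Lf_supp {N : ℕ} [NeZero N] (X S : Finset (ZMod N)) (j : ℕ) (x : ZMod N)
    (hx : LfG X S j x ≠ 0) : x ∈ S + j • X := by
  induction j generalizing x with
  | zero =>
    rw [zero_nsmul, add_zero]
    by_contra h
    exact hx (if_neg h)
  | succ j ih =>
    rw [Lf_step] at hx
    obtain ⟨s, hs, h1⟩ := Finset.exists_ne_zero_of_sum_ne_zero hx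
    have h2 := ih (x - s) (right_ne_zero_of_mul h1)
    rw [succ_nsmul, ← add_assoc]
    have e : x = (x - s) + s := by ring
    rw [e]
    exact Finset.add_mem_add h2 hs

lemma Lf_rep {N : ℕ} [NeZero N] (X S : Finset (ZMod N)) (j : ℕ) :
    Rep (LfG X S j) (fun γ => wft (LfG X S 0) γ / N * wft (unif X) γ ^ j) := by
  induction j with
  | zero =>
    have h := rep_inv (LfG X S 0)
    intro x
    simpa using h x
  | succ j ih =>
    have h := rep_cnv (unif X) _ _ ih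
    intro x
    rw [show LfG X S (j + 1) = cnv (unif X) (LfG X S j) from rfl, h x]
    refine Finset.sum_congr rfl fun γ _ => ?_
    show wft (LfG X S 0) γ / N * wft (unif X) γ ^ j * wft (unif X) γ * ee (γ * x) =
      wft (LfG X S 0) γ / N * wft (unif X) γ ^ (j + 1) * ee (γ * x)
    rw [pow_succ]
    ring

lemma Lf_ind {N : ℕ} [NeZero N] (X S : Finset (ZMod N)) (hS : S.Nonempty) (γ : ZMod N) :
    wft (LfG X S 0) γ = (S.card : ℂ) * wft (unif S) γ := by
  have hc : (S.card : ℝ) ≠ 0 := by exact_mod_cast hS.card_pos.ne'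
  unfold wft
  rw [Finset.mul_sum]
  refine Finset.sum_congr rfl fun s _ => ?_
  have h1 : LfG X S 0 s = (S.card : ℝ) * unif S s := by
    show (if s ∈ S then (1 : ℝ) else 0) = (S.card : ℝ) * (if s ∈ S then (S.card : ℝ)⁻¹ else 0)
    split_ifs
    · rw [mul_inv_cancel₀ hc]
    · rw [mul_zero]
  rw [h1]
  push_cast
  ring

theorem lfold {N : ℕ} [NeZero N] (X : Finset (ZMod N)) (h0 : (0 : ZMod N) ∈ X) (hneg : -X = X)
    (n : ℕ) (hn1 : 1 ≤ n) (hn : 16384 * ((n • X).card : ℝ) ≤ 4 ^ n * (X.card : ℝ)) :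
    ∃ Γ : Finset (ZMod N), (Γ.card : ℝ) ≤ 8 * Real.log ((N : ℝ) / X.card) ∧
      ∀ ε : ℝ, Γ.card * ε ≤ 1 / 250 → ∀ x : ZMod N,
        (∀ γ ∈ Γ, |((γ * x).val : ℝ) / (N : ℝ)
          - ((round (((γ * x).val : ℝ) / (N : ℝ)) : ℤ) : ℝ)| ≤ ε) →
        x ∈ (2 * n) • X := by
  have hXn : X.Nonempty := ⟨0, h0⟩
  have hSn : (n • X).Nonempty := hXn.nsmul
  obtain ⟨S, hS⟩ : ∃ S, S = n • X := ⟨_, rfl⟩
  rw [← hS] at hn hSn
  have hN : (0 : ℝ) < N := by exact_mod_cast Nat.pos_of_ne_zero (NeZero.ne N)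
  have hXc : (0 : ℝ) < X.card := by exact_mod_cast hXn.card_pos
  have hSc : (0 : ℝ) < S.card := by exact_mod_cast hSn.card_pos
  -- the tail
  obtain ⟨a, ha⟩ : ∃ a : ZMod N → ℝ, a = fun γ => ‖wft (unif S) γ‖ := ⟨_, rfl⟩
  obtain ⟨b, hb⟩ : ∃ b : ZMod N → ℝ, b = fun γ => ‖wft (unif X) γ‖ := ⟨_, rfl⟩
  have ha2 : ∑ γ, a γ ^ 2 = N / S.card := by
    rw [ha]
    exact sum_wft_unif_sq S hSn
  have hb2 : ∑ γ, b γ ^ 2 = N / X.card := by
    rw [hb]
    exact sum_wft_unif_sq X hXn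
  have ha0 : ∀ γ, 0 ≤ a γ := fun γ => by rw [ha]; exact norm_nonneg _
  have hb0 : ∀ γ, 0 ≤ b γ := fun γ => by rw [hb]; exact norm_nonneg _
  obtain ⟨m, hm⟩ : ∃ m, n = m + 1 := ⟨n - 1, by omega⟩
  have hcn : ∀ γ, ‖wft (LfG X S 0) γ / N * wft (unif X) γ ^ n‖ =
      S.card / N * (a γ * b γ ^ n) := by
    intro γ
    rw [Lf_ind X S hSn, norm_mul, norm_div, norm_mul, norm_pow, Complex.norm_natCast,
      Complex.norm_natCast, ha, hb]
    ring
  have htail : ∑ γ ∈ Finset.univ.filter (fun γ => ‖wft (unif X) γ‖ < 1 / 2),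
      ‖wft (LfG X S 0) γ / N * wft (unif X) γ ^ n‖ ≤ 1 / 64 := by
    have h1 : ∑ γ ∈ Finset.univ.filter (fun γ => ‖wft (unif X) γ‖ < 1 / 2),
        ‖wft (LfG X S 0) γ / N * wft (unif X) γ ^ n‖ ≤
        ∑ γ, S.card / N * (1 / 2) ^ m * (a γ * b γ) := by
      calc ∑ γ ∈ Finset.univ.filter (fun γ => ‖wft (unif X) γ‖ < 1 / 2),
            ‖wft (LfG X S 0) γ / N * wft (unif X) γ ^ n‖
          ≤ ∑ γ ∈ Finset.univ.filter (fun γ => ‖wft (unif X) γ‖ < 1 / 2),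
            S.card / N * (1 / 2) ^ m * (a γ * b γ) := by
            refine Finset.sum_le_sum fun γ hγ => ?_
            rw [hcn]
            have hlt : b γ < 1 / 2 := by
              rw [hb]
              exact (Finset.mem_filter.1 hγ).2
            have h2 : b γ ^ m ≤ (1 / 2) ^ m := pow_le_pow_left₀ (hb0 γ) hlt.le m
            rw [hm, pow_succ]
            have h3 : (0 : ℝ) ≤ S.card / N * (a γ * b γ) :=
              mul_nonneg (by positivity) (mul_nonneg (ha0 γ) (hb0 γ))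
            calc (S.card : ℝ) / N * (a γ * (b γ ^ m * b γ))
                = (S.card : ℝ) / N * (a γ * b γ) * b γ ^ m := by ring
              _ ≤ (S.card : ℝ) / N * (a γ * b γ) * (1 / 2) ^ m := by
                  exact mul_le_mul_of_nonneg_left h2 h3
              _ = S.card / N * (1 / 2) ^ m * (a γ * b γ) := by ring
        _ ≤ _ := by
            refine Finset.sum_le_sum_of_subset_of_nonneg (Finset.filter_subset _ _)
              fun γ _ _ => ?_
            exact mul_nonneg (by positivity) (mul_nonneg (ha0 γ) (hb0 γ))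
    refine h1.trans ?_
    rw [← Finset.mul_sum]
    have h4 : (∑ γ, a γ * b γ) ^ 2 ≤ (N / S.card) * (N / X.card) := by
      rw [← ha2, ← hb2]
      exact Finset.sum_mul_sq_le_sq_mul_sq _ _ _
    obtain ⟨T, hT⟩ : ∃ T, T = ∑ γ, a γ * b γ := ⟨_, rfl⟩
    obtain ⟨sR, hsR⟩ : ∃ sR : ℝ, sR = S.card := ⟨_, rfl⟩
    obtain ⟨xR, hxR⟩ : ∃ xR : ℝ, xR = X.card := ⟨_, rfl⟩
    obtain ⟨NR, hNR⟩ : ∃ NR : ℝ, NR = N := ⟨_, rfl⟩
    obtain ⟨p, hp⟩ : ∃ p : ℝ, p = (1 / 2) ^ m := ⟨_, rfl⟩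
    rw [← hT, ← hsR, ← hxR, ← hNR] at h4
    rw [← hT, ← hsR, ← hNR, ← hp]
    rw [← hsR, ← hxR] at hn
    rw [← hsR] at hSc
    rw [← hxR] at hXc
    rw [← hNR] at hN
    have h6 : p ^ 2 = 4 / 4 ^ n := by
      have e4 : (4 : ℝ) ^ n = 4 * 4 ^ m := by rw [hm, pow_succ, mul_comm]
      have e5 : (4 : ℝ) ^ m ≠ 0 := by positivity
      rw [e4, hp, ← pow_mul, mul_comm m 2, pow_mul,
        show ((1 / 2 : ℝ) ^ 2) = 1 / 4 by norm_num, one_div_pow]
      field_simp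
    have h5 : (sR / NR * p * T) ^ 2 ≤ (1 / 64 : ℝ) ^ 2 := by
      calc (sR / NR * p * T) ^ 2
          = (sR / NR * p) ^ 2 * T ^ 2 := by ring
        _ ≤ (sR / NR * p) ^ 2 * ((NR / sR) * (NR / xR)) :=
            mul_le_mul_of_nonneg_left h4 (sq_nonneg _)
        _ = p ^ 2 * (sR / xR) := by
            field_simp
        _ ≤ (1 / 64 : ℝ) ^ 2 := by
            rw [h6]
            have h7 : (0 : ℝ) < 4 ^ n := by positivity
            rw [div_mul_div_comm, div_le_iff₀ (by positivity)]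
            nlinarith
    exact (abs_le_of_sq_le_sq' h5 (by norm_num)).2
  obtain ⟨Γ, hΓ, hΓ2⟩ := criterion (unif X) ⟨unif_nonneg X, sum_unif X hXn⟩ (LfG X S n)
    (fun γ => wft (LfG X S 0) γ / N * wft (unif X) γ ^ n) (Lf_rep X S n)
    (fun z => Lf_bd X S hXn n z) htail
  refine ⟨Γ, ?_, ?_⟩
  · have h1 : entT (unif X) = Real.log X.card := ent_unif X hXn
    rw [Real.log_div hN.ne' hXc.ne', ← h1]
    exact hΓ
  · intro ε hε x hx
    have h1 := hΓ2 ε hε x hx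
    have h2 : LfG X S n 0 = 1 := by
      rw [hS]
      refine Lf_one X h0 hneg n n le_rfl 0 ?_
      rw [Nat.sub_self, zero_nsmul]
      exact Finset.zero_mem_zero
    rw [h2] at h1
    have h3 : LfG X S n x ≠ 0 := by
      intro h4
      rw [h4] at h1
      norm_num at h1
    have h5 := Lf_supp X S n x h3
    rw [hS, ← add_nsmul, ← two_mul] at h5
    exact h5

end Pool.Agent.H18.LQ
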