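import Mathlib

/-! ROW Mod1 (about 130 lines).  Lifting a subset of `Z_N` to the integers.

PROOF.  Let `c a := 12 * a.val / N` (natural division), a number in `{0, ..., 11}` (as `a.val < N`).
By the pigeonhole principle (`Finset.exists_lt_card_fiber_of_...` or: the sum over `j < 12` of the
cardinalities of the fibres of `c` on `A` is `A.card`, so some fibre `A₁ = A.filter (c · = j)` has
`A.card ≤ 12 * A₁.card`); `A₁` is nonempty since `A.card > 0`.
For `a, b ∈ A₁`: `j * N ≤ 12 * a.val < (j + 1) * N` and the same for `b`, so as integers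
`12 * |a.val - b.val| < N`, i.e. `≤ N - 1`.                                                    (1)
Let `D` be the image of `(Fin 6 → A₁) × (Fin 6 → A₁)` (e.g. `Fintype.piFinset (fun _ => A₁) ×ˢ
Fintype.piFinset (fun _ => A₁)`) under `(x, y) ↦ ∑ i, ((x i).val : ℤ) - ∑ i, ((y i).val : ℤ)`.
* bound `|d| < N`: `12 * |∑ (x i - y i)| ≤ ∑ i, 12 * |x i - y i| ≤ 6 * (N - 1) < 12 * N`  (here and
  below use `Finset.abs_sum_le_sum_abs`).
* `A₁.card ≤ D.card`: fix `y i = x i = a₀` for `i ≠ 0`, the map `a ↦ (a.val : ℤ) - a₀.val` is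
  injective on `A₁` with values in `D` (`x = Function.update (fun _ => a₀) 0 a`, `y = fun _ => a₀`).
* `D.card ≤ ((6 • A) - (6 • A)).card`: the cast `ℤ → ZMod N` is injective on `D`
  (`Finset.card_le_card_of_injOn`): if `d = ∑ (x i - y i)`, `d' = ∑ (x' i - y' i)` have the same
  image then `N ∣ d - d'` and `12 * |d - d'| ≤ ∑ i 12 |x i - y i| + ∑ i 12 |x' i - y' i|
  ≤ 12 * (N - 1)`, so `|d - d'| < N` and `d = d'`  (`Int.eq_zero_of_abs_lt_dvd`).
  Its values are in `6 • A - 6 • A`: the cast of `∑ ((x i).val : ℤ)` is `∑ x i`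
  (`ZMod.natCast_zmod_val`), and `∑ i : Fin 6, x i ∈ 6 • A` (by `Fin.sum_univ_six` and
  `Finset.add_mem_add`, after `show 6 • A = A + A + A + A + A + A` by `simp [succ_nsmul]`). -/

set_option autoImplicit false

open Finset
open scoped Pointwise

namespace Pool.Agent.H18.LQ

theorem Mod1_mem {N : ℕ} (A : Finset (ZMod N)) (x : Fin 6 → ZMod N) (hx : ∀ i, x i ∈ A) :
    ∑ i, x i ∈ 6 • A := by
  rw [Fin.sum_univ_six]
  have h : 6 • A = A + A + A + A + A + A := by
    simp [succ_nsmul]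
  rw [h]
  exact Finset.add_mem_add (Finset.add_mem_add (Finset.add_mem_add (Finset.add_mem_add
    (Finset.add_mem_add (hx 0) (hx 1)) (hx 2)) (hx 3)) (hx 4)) (hx 5)

theorem lift_int {N : ℕ} [NeZero N] (A : Finset (ZMod N)) (hA : A.Nonempty) :
    ∃ A₁ : Finset (ZMod N), A₁ ⊆ A ∧ A₁.Nonempty ∧ A.card ≤ 12 * A₁.card ∧
      ∃ D : Finset ℤ, D.card ≤ ((6 • A) - (6 • A)).card ∧ A₁.card ≤ D.card ∧
        (∀ d ∈ D, |d| < (N : ℤ)) ∧
        ∀ x y : Fin 6 → ZMod N, (∀ i, x i ∈ A₁) → (∀ i, y i ∈ A₁) →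
          (∑ i, ((x i).val : ℤ)) - (∑ i, ((y i).val : ℤ)) ∈ D := by
  classical
  have hN : 0 < N := Nat.pos_of_ne_zero (NeZero.ne N)
  let c : ZMod N → ℕ := fun a => 12 * a.val / N
  have hc : ∀ a ∈ A, c a ∈ Finset.range 12 := by
    intro a _
    rw [Finset.mem_range]
    refine Nat.div_lt_of_lt_mul ?_
    have := ZMod.val_lt a
    nlinarith
  obtain ⟨j, hj, hjc⟩ : ∃ j ∈ Finset.range 12,
      A.card ≤ 12 * (A.filter (fun a => c a = j)).card := by
    by_contra hcon
    push Not at hcon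
    have h1 := Finset.card_eq_sum_card_fiberwise (f := c) (s := A) (t := Finset.range 12) hc
    have h2 : 12 * A.card < 12 * A.card := by
      calc 12 * A.card = ∑ j ∈ Finset.range 12, 12 * (A.filter (fun a => c a = j)).card := by
            rw [← Finset.mul_sum, ← h1]
        _ < ∑ j ∈ Finset.range 12, A.card :=
            Finset.sum_lt_sum_of_nonempty ⟨0, by simp⟩ (fun j hj => hcon j hj)
        _ = 12 * A.card := by simp
    omega
  set A₁ := A.filter (fun a => c a = j) with hA1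
  have hA1ne : A₁.Nonempty := by
    rw [← Finset.card_pos]
    have := hA.card_pos
    omega
  have hkey : ∀ a ∈ A₁, ∀ b ∈ A₁, 12 * |(a.val : ℤ) - b.val| ≤ N - 1 := by
    intro a ha b hb
    have ha2 : 12 * a.val / N = j := (Finset.mem_filter.1 ha).2
    have hb2 : 12 * b.val / N = j := (Finset.mem_filter.1 hb).2
    have ha3 := Nat.div_add_mod (12 * a.val) N
    have hb3 := Nat.div_add_mod (12 * b.val) N
    have ha4 := Nat.mod_lt (12 * a.val) hN
    have hb4 := Nat.mod_lt (12 * b.val) hN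
    rw [ha2] at ha3
    rw [hb2] at hb3
    generalize N * j = M at ha3 hb3
    rcases abs_cases ((a.val : ℤ) - b.val) with ⟨h, _⟩ | ⟨h, _⟩ <;> rw [h] <;> omega
  have hbd : ∀ x y : Fin 6 → ZMod N, (∀ i, x i ∈ A₁) → (∀ i, y i ∈ A₁) →
      12 * |(∑ i, ((x i).val : ℤ)) - (∑ i, ((y i).val : ℤ))| ≤ 6 * (N - 1) := by
    intro x y hx hy
    rw [← Finset.sum_sub_distrib]
    calc 12 * |∑ i, (((x i).val : ℤ) - ((y i).val : ℤ))|
        ≤ 12 * ∑ i, |((x i).val : ℤ) - ((y i).val : ℤ)| := by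
          have := Finset.abs_sum_le_sum_abs (fun i => ((x i).val : ℤ) - ((y i).val : ℤ)) Finset.univ
          linarith
      _ = ∑ i, 12 * |((x i).val : ℤ) - ((y i).val : ℤ)| := by rw [Finset.mul_sum]
      _ ≤ ∑ i : Fin 6, ((N : ℤ) - 1) :=
          Finset.sum_le_sum (fun i _ => hkey _ (hx i) _ (hy i))
      _ = 6 * (N - 1) := by
          rw [Finset.sum_const, Finset.card_univ, Fintype.card_fin, nsmul_eq_mul]
          push_cast
          ring
  let F : (Fin 6 → ZMod N) × (Fin 6 → ZMod N) → ℤ := fun p =>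
    (∑ i, ((p.1 i).val : ℤ)) - (∑ i, ((p.2 i).val : ℤ))
  let D : Finset ℤ := (Fintype.piFinset (fun _ : Fin 6 => A₁) ×ˢ
    Fintype.piFinset (fun _ : Fin 6 => A₁)).image F
  have hD1 : ∀ x y : Fin 6 → ZMod N, (∀ i, x i ∈ A₁) → (∀ i, y i ∈ A₁) →
      (∑ i, ((x i).val : ℤ)) - (∑ i, ((y i).val : ℤ)) ∈ D := by
    intro x y hx hy
    exact Finset.mem_image.2 ⟨(x, y), Finset.mem_product.2
      ⟨Fintype.mem_piFinset.2 hx, Fintype.mem_piFinset.2 hy⟩, rfl⟩
  have hD2 : ∀ d ∈ D, ∃ x y : Fin 6 → ZMod N, (∀ i, x i ∈ A₁) ∧ (∀ i, y i ∈ A₁) ∧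
      d = (∑ i, ((x i).val : ℤ)) - (∑ i, ((y i).val : ℤ)) := by
    intro d hd
    obtain ⟨⟨x, y⟩, hp, rfl⟩ := Finset.mem_image.1 hd
    rw [Finset.mem_product, Fintype.mem_piFinset, Fintype.mem_piFinset] at hp
    exact ⟨x, y, hp.1, hp.2, rfl⟩
  refine ⟨A₁, Finset.filter_subset _ _, hA1ne, hjc, D, ?_, ?_, ?_, hD1⟩
  · refine Finset.card_le_card_of_injOn (fun d : ℤ => (d : ZMod N)) ?_ ?_
    · intro d hd
      obtain ⟨x, y, hx, hy, rfl⟩ := hD2 d hd
      have hx' : ∀ i, x i ∈ A := fun i => (Finset.mem_filter.1 (hx i)).1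
      have hy' : ∀ i, y i ∈ A := fun i => (Finset.mem_filter.1 (hy i)).1
      have h1 := Finset.sub_mem_sub (Mod1_mem A x hx') (Mod1_mem A y hy')
      have h2 : (((∑ i, ((x i).val : ℤ)) - (∑ i, ((y i).val : ℤ)) : ℤ) : ZMod N) =
          ∑ i, x i - ∑ i, y i := by
        push_cast
        simp
      rw [Finset.mem_coe]
      change (((∑ i, ((x i).val : ℤ)) - (∑ i, ((y i).val : ℤ)) : ℤ) : ZMod N) ∈ _
      rw [h2]
      exact h1
    · intro d hd d' hd' hdd
      obtain ⟨x, y, hx, hy, hdx⟩ := hD2 d hd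
      obtain ⟨x', y', hx', hy', hdx'⟩ := hD2 d' hd'
      have h1 := hbd x y hx hy
      have h2 := hbd x' y' hx' hy'
      rw [← hdx] at h1
      rw [← hdx'] at h2
      have h3 := ((ZMod.intCast_eq_intCast_iff d d' N).1 hdd).dvd
      have h4 : |d' - d| < (N : ℤ) := by
        have h5 := abs_sub d' d
        have hN' : (0 : ℤ) < N := by exact_mod_cast hN
        linarith
      have h5 := Int.eq_zero_of_abs_lt_dvd h3 h4
      linarith
  · obtain ⟨a₀, ha₀⟩ := hA1ne
    refine Finset.card_le_card_of_injOn (fun a : ZMod N => (a.val : ℤ) - a₀.val) ?_ ?_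
    · intro a ha
      have h1 := hD1 (Fin.cons a (fun _ => a₀)) (fun _ => a₀) (fun i => by
        refine Fin.cases ?_ (fun k => ?_) i
        · exact ha
        · exact ha₀) (fun _ => ha₀)
      rw [Fin.sum_univ_succ] at h1
      simp only [Fin.cons_zero, Fin.cons_succ, Finset.sum_const, Finset.card_univ,
        Fintype.card_fin] at h1
      rw [Finset.mem_coe]
      convert h1 using 1
      simp only [nsmul_eq_mul]
      push_cast
      ring
    · intro a ha b hb hab
      have h1 : (a.val : ℤ) = b.val := by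
        have : (a.val : ℤ) - a₀.val = b.val - a₀.val := hab
        linarith
      exact ZMod.val_injective N (by exact_mod_cast h1)
  · intro d hd
    obtain ⟨x, y, hx, hy, hdx⟩ := hD2 d hd
    have h1 := hbd x y hx hy
    rw [← hdx] at h1
    have hN' : (0 : ℤ) < N := by exact_mod_cast hN
    linarith

end Pool.Agent.H18.LQ
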