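import Pool.Agent.H18.LQ.Dil

/-! ROW Mod2 (about 120 lines).  The model in `Z_M`, `M = 2 |D| + 1`; uses only the statement of
`exists_dilate` (row Dil).

PROOF.  Let `q` be a prime `> N` (`Nat.exists_infinite_primes (N + 1)`), `M = 2 * D.card + 1`, and
`s` the integer of `exists_dilate D q hq _ M _` (all `d ∈ D` have `|d| < N < q`).  Let
`r a = (s * (a.val : ℤ)) % q ∈ [0, q)`, `φ a = ((r a : ℤ) : ZMod M)` and `c a = 6 * r a / q`,
an integer in `[0, 6)`.  Pigeonhole (as the sum of the cardinalities of the 6 fibres of `c` on `A₁`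
is `A₁.card`): there is `j` such that `A₂ = A₁.filter (c · = j)` has `A₁.card ≤ 6 * A₂.card`; it is
nonempty.  For `a, b ∈ A₂`: `j * q ≤ 6 * r a < (j + 1) * q`, the same for `b`, so
`6 * |r a - r b| ≤ q - 1`.
Let `x, y : Fin 6 → ZMod N` be with values in `A₂`, `d = ∑ (x i).val - ∑ (y i).val ∈ D` and
`R = ∑ r (x i) - ∑ r (y i)`.  Then `6 * |R| ≤ ∑ 6 |r (x i) - r (y i)| ≤ 6 (q - 1)`, so `|R| < q`,
and `R ≡ s * d` modulo `q` (`Int.emod_emod_of_dvd`, `Int.ModEq`; or write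
`r a = s * a.val - q * (s * a.val / q)`).
* `∑ x i = ∑ y i` iff the cast of `d` to `ZMod N` is `0` iff `N ∣ d` iff `d = 0` (`|d| < N`,
  `Int.eq_zero_of_abs_lt_dvd`, `ZMod.intCast_zmod_eq_zero_iff_dvd`, `ZMod.natCast_zmod_val`).
* `∑ φ (x i) = ∑ φ (y i)` iff the cast of `R` to `ZMod M` is `0` iff `M ∣ R`.
* if `d = 0` then `q ∣ R`, `|R| < q`, so `R = 0` and `M ∣ R`.
* if `d ≠ 0`: `R % q = (s * d) % q`; if `R ≥ 0` then `R = R % q = (s * d) % q` is not divisible
  by `M`; if `R < 0` then `R % q = R + q` (`Int.emod_eq_of_lt` for `R + q`), so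
  `-R = q - (s * d) % q` is not divisible by `M`.
So both conditions are equivalent to `d = 0`. -/

set_option autoImplicit false

open Finset

namespace Pool.Agent.H18.LQ

theorem model_of_lift {N : ℕ} [NeZero N] (A₁ : Finset (ZMod N)) (hA : A₁.Nonempty)
    (D : Finset ℤ) (hDN : ∀ d ∈ D, |d| < (N : ℤ))
    (hD : ∀ x y : Fin 6 → ZMod N, (∀ i, x i ∈ A₁) → (∀ i, y i ∈ A₁) →
      (∑ i, ((x i).val : ℤ)) - (∑ i, ((y i).val : ℤ)) ∈ D) :
    ∃ (A₂ : Finset (ZMod N)) (φ : ZMod N → ZMod (2 * D.card + 1)),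
      A₂ ⊆ A₁ ∧ A₂.Nonempty ∧ A₁.card ≤ 6 * A₂.card ∧
      ∀ x y : Fin 6 → ZMod N, (∀ i, x i ∈ A₂) → (∀ i, y i ∈ A₂) →
        (∑ i, x i = ∑ i, y i ↔ ∑ i, φ (x i) = ∑ i, φ (y i)) := by
  classical
  obtain ⟨q, hqN, hq⟩ := Nat.exists_infinite_primes (N + 1)
  have hq0 : (0 : ℤ) < q := by exact_mod_cast hq.pos
  have hNq : (N : ℤ) < q := by exact_mod_cast hqN
  obtain ⟨s, hs⟩ := exists_dilate D q hq (fun d hd => (hDN d hd).trans hNq) (2 * D.card + 1)
    (Nat.lt_succ_self _)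
  set r : ZMod N → ℤ := fun a => (s * (a.val : ℤ)) % (q : ℤ) with hr
  have r0 : ∀ a, 0 ≤ r a := fun a => Int.emod_nonneg _ hq0.ne'
  have rq : ∀ a, r a < q := fun a => Int.emod_lt_of_pos _ hq0
  have rd : ∀ a, (q : ℤ) ∣ r a - s * (a.val : ℤ) := fun a =>
    (Int.ModEq.dvd (Int.mod_modEq (s * (a.val : ℤ)) (q : ℤ)).symm)
  set c : ZMod N → ℕ := fun a => (6 * r a / (q : ℤ)).toNat with hc
  have c0 : ∀ a, 0 ≤ 6 * r a / (q : ℤ) := fun a =>
    Int.ediv_nonneg (by have := r0 a; positivity) hq0.le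
  have c6 : ∀ a ∈ A₁, c a ∈ range 6 := by
    intro a _
    rw [mem_range]
    have h1 : 6 * r a / (q : ℤ) < 6 := by
      apply Int.ediv_lt_of_lt_mul hq0
      have := rq a
      linarith
    have h2 := c0 a
    simp only [hc]
    omega
  obtain ⟨j, hj⟩ : ∃ j, A₁.card ≤ 6 * (A₁.filter fun a => c a = j).card := by
    by_contra hcon
    push Not at hcon
    have h1 := card_eq_sum_card_fiberwise c6
    have h2 : ∑ j ∈ range 6, 6 * (A₁.filter fun a => c a = j).card < ∑ _j ∈ range 6, A₁.card :=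
      sum_lt_sum_of_nonempty ⟨0, by simp⟩ fun j _ => hcon j
    rw [← mul_sum, ← h1, sum_const, card_range, smul_eq_mul] at h2
    exact lt_irrefl _ h2
  refine ⟨A₁.filter fun a => c a = j, fun a => ((r a : ℤ) : ZMod (2 * D.card + 1)),
    filter_subset _ _, ?_, hj, ?_⟩
  · rw [← card_pos] at hA ⊢
    omega
  intro x y hx hy
  set d : ℤ := (∑ i, ((x i).val : ℤ)) - (∑ i, ((y i).val : ℤ)) with hd
  have hdD : d ∈ D := hD x y (fun i => (mem_filter.1 (hx i)).1) fun i => (mem_filter.1 (hy i)).1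
  set R : ℤ := ∑ i, (r (x i) - r (y i)) with hR
  have hRq : |R| < q := by
    have h1 : |R| ≤ ∑ i, |r (x i) - r (y i)| := abs_sum_le_sum_abs _ _
    have h2 : ∀ i, 6 * |r (x i) - r (y i)| < q := by
      intro i
      have e1 : 6 * r (x i) / (q : ℤ) = j := by
        have := (mem_filter.1 (hx i)).2
        have h3 := c0 (x i)
        simp only [hc] at this
        omega
      have e2 : 6 * r (y i) / (q : ℤ) = j := by
        have := (mem_filter.1 (hy i)).2
        have h3 := c0 (y i)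
        simp only [hc] at this
        omega
      have f1 := Int.mul_ediv_add_emod (6 * r (x i)) q
      have f2 := Int.mul_ediv_add_emod (6 * r (y i)) q
      have g1 := Int.emod_nonneg (6 * r (x i)) hq0.ne'
      have g2 := Int.emod_nonneg (6 * r (y i)) hq0.ne'
      have g3 := Int.emod_lt_of_pos (6 * r (x i)) hq0
      have g4 := Int.emod_lt_of_pos (6 * r (y i)) hq0
      rw [e1] at f1
      rw [e2] at f2
      have h6 : 6 * |r (x i) - r (y i)| = |6 * (r (x i) - r (y i))| := by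
        rw [abs_mul]; norm_num
      rw [h6, abs_lt]
      constructor <;> linarith
    have h3 : ∑ i, 6 * |r (x i) - r (y i)| < ∑ _i : Fin 6, (q : ℤ) :=
      sum_lt_sum_of_nonempty univ_nonempty fun i _ => h2 i
    rw [← mul_sum, sum_const, card_univ, Fintype.card_fin, nsmul_eq_mul] at h3
    push_cast at h3
    linarith
  have hqR : (q : ℤ) ∣ R - s * d := by
    have e : R - s * d = ∑ i, ((r (x i) - s * ((x i).val : ℤ)) - (r (y i) - s * ((y i).val : ℤ))) := by
      simp only [hR, hd, sum_sub_distrib, mul_sub, mul_sum]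
      ring
    rw [e]
    exact dvd_sum fun i _ => dvd_sub (rd _) (rd _)
  have i1 : (∑ i, x i = ∑ i, y i) ↔ (N : ℤ) ∣ d := by
    rw [← ZMod.intCast_zmod_eq_zero_iff_dvd, hd, ← sub_eq_zero]
    push_cast
    simp only [ZMod.natCast_zmod_val]
  have i2 : (∑ i, ((r (x i) : ℤ) : ZMod (2 * D.card + 1)) =
      ∑ i, ((r (y i) : ℤ) : ZMod (2 * D.card + 1))) ↔ (((2 * D.card + 1 : ℕ) : ℤ)) ∣ R := by
    rw [← ZMod.intCast_zmod_eq_zero_iff_dvd, hR, ← sub_eq_zero]
    push_cast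
    rw [sum_sub_distrib]
  have i3 : (N : ℤ) ∣ d ↔ d = 0 :=
    ⟨fun h => Int.eq_zero_of_abs_lt_dvd h (hDN d hdD), fun h => h ▸ dvd_zero _⟩
  rw [i1, i2, i3]
  constructor
  · intro h
    rw [h, mul_zero, sub_zero] at hqR
    rw [Int.eq_zero_of_abs_lt_dvd hqR hRq]
    exact dvd_zero _
  · intro h
    by_contra hd0
    obtain ⟨n1, n2⟩ := hs d hdD hd0
    have hmod : R % (q : ℤ) = (s * d) % (q : ℤ) :=
      (Int.ModEq.symm (Int.modEq_iff_dvd.2 hqR))
    rcases le_or_gt 0 R with hR0 | hR0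
    · rw [← hmod, Int.emod_eq_of_lt hR0 (lt_of_abs_lt hRq)] at n1
      exact n1 h
    · have h1 : R % (q : ℤ) = R + q := by
        rw [← Int.add_emod_right, Int.emod_eq_of_lt]
        · have := neg_lt_of_abs_lt hRq
          linarith
        · linarith
      rw [← hmod, h1] at n2
      apply n2
      have : (q : ℤ) - (R + q) = -R := by ring
      rw [this]
      exact (dvd_neg).2 h

end Pool.Agent.H18.LQ
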