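import Mathlib

/-! ROW Par (about 130 lines).  Choice of the parameters.

Here `y` stands for `12 * k + 10`, `r` for the rank of a Bohr set and `ρ` for its radius.
PROOF.  Write `c₁ = min c 1`, `E = |log (6 / c₁)|`, `D = 4 * C ^ 2 + 2 * (3 + C * (6 + E)) + 1` and
`n = ⌈D * y ^ 3⌉₊`, so `D y³ ≤ n ≤ D y³ + 1 ≤ 2 D y³` (`D ≥ 1`, `y ≥ 22`).  `m = ⌈2 * n / (min ρ 1)⌉₊`.
(a) `2 n / m ≤ min ρ 1 ≤ ρ`; `m ≥ 1`.
(b) `m ≤ 2 n / min ρ 1 + 1 ≤ 3 n / min ρ 1` (as `n ≥ 1`, `min ρ 1 ≤ 1`), and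
    `min ρ 1 ≥ c₁ / (y ^ 2 * log y)` (as `y ^ 2 * log y ≥ 1`), so with `n ≤ 2 D y³`, `log y ≤ y`:
    `m ≤ 3 n y² log y / c₁ ≤ (6 / c₁) * D * y ^ 6`, `log m ≤ E + log D + 6 log y`.
(c) `r * log m ≤ C y² log y (E + log D + 6 log y) ≤ C (E + |log D| + 6) * (y² (log y)²)` since
    `log y ≥ 1`.  This is the second claim with `C' = C (E + |log D| + 6)` (which depends only on
    `C` and `c`).
(d) first claim.  Fact: `log t ≤ t / 2` for `t > 0`, since `log t = log (t / 2) + log 2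
    ≤ (t / 2 - 1) + log 2 ≤ t / 2` (`Real.log_le_sub_one_of_pos`, `Real.log_two_lt_d9`).  Hence
    `log y = 2 * log (sqrt y) ≤ sqrt y`, so `(log y)² ≤ y`, and in the same way
    `0 ≤ log D ≤ sqrt D` (`D ≥ 1`).
    `log (16384 * 72) ≤ 14` (`16384 * 72 = 1179648 ≤ 2.718 ^ 14 ≤ exp 14`, `Real.exp_one_gt_d9`), so
    it suffices that `14 + y + r log m ≤ n * log 4` (as `4 * k ≤ y`).  By (c)
    `r log m ≤ C (E + log D + 6) y² (log y)² ≤ C (E + log D + 6) y³`.
    Now `C * log D ≤ C * sqrt D ≤ D / 2` since `sqrt D ≥ 2 C`, and `C (6 + E) ≤ D / 2 - 3`; so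
    `14 + y + r log m ≤ 3 y³ + (D - 3) y³ = D y³ ≤ n ≤ n log 4`  (`log 4 = 2 log 2 ≥ 1`).
    Exponentiate: `16384 * 72 * exp (4 k) * m ^ r ≤ exp (n log 4) = 4 ^ n`. -/

set_option autoImplicit false

namespace Pool.Agent.H18.LQ

private theorem log_le_half {t : ℝ} (ht : 0 < t) : Real.log t ≤ t / 2 := by
  have h1 : Real.log (t / 2) ≤ t / 2 - 1 := Real.log_le_sub_one_of_pos (by positivity)
  have h2 : Real.log (t / 2) = Real.log t - Real.log 2 :=
    Real.log_div ht.ne' (by norm_num)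
  have h3 := Real.log_two_lt_d9
  linarith

private theorem log_le_sqrt {t : ℝ} (ht : 0 < t) : Real.log t ≤ Real.sqrt t := by
  have h1 := log_le_half (Real.sqrt_pos.2 ht)
  rw [Real.log_sqrt ht.le] at h1
  linarith

private theorem log_big : Real.log (16384 * 72) ≤ 14 := by
  rw [Real.log_le_iff_le_exp (by norm_num)]
  have h1 : Real.exp 14 = Real.exp 1 ^ 14 := by
    rw [← Real.exp_nat_mul]
    norm_num
  rw [h1]
  have h2 : (2.718 : ℝ) ≤ Real.exp 1 := by
    have := Real.exp_one_gt_d9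
    linarith
  calc (16384 * 72 : ℝ) ≤ 2.718 ^ 14 := by norm_num
    _ ≤ Real.exp 1 ^ 14 := pow_le_pow_left₀ (by norm_num) h2 14

theorem params_lq (C c : ℝ) (hC : 0 < C) (hc : 0 < c) :
    ∃ C' : ℝ, 0 < C' ∧ ∀ (k y ρ : ℝ) (r : ℕ), 22 ≤ y → 4 * k ≤ y → 0 < ρ →
      (r : ℝ) ≤ C * (y ^ 2 * Real.log y) → c / (y ^ 2 * Real.log y) ≤ ρ →
      ∃ n m : ℕ, 1 ≤ n ∧ 1 ≤ m ∧ 2 * (n : ℝ) / m ≤ ρ ∧
        16384 * 72 * (Real.exp (4 * k) * (m : ℝ) ^ r) ≤ 4 ^ n ∧
        (r : ℝ) * Real.log m ≤ C' * (y ^ 2 * Real.log y ^ 2) := by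
  set c₁ : ℝ := min c 1 with hc₁
  have hc1 : 0 < c₁ := lt_min hc one_pos
  have hc1c : c₁ ≤ c := min_le_left _ _
  have hc11 : c₁ ≤ 1 := min_le_right _ _
  set E : ℝ := |Real.log (6 / c₁)| with hE
  have hE0 : 0 ≤ E := abs_nonneg _
  set D : ℝ := 4 * C ^ 2 + 2 * (3 + C * (6 + E)) + 1 with hD
  have hD7 : 7 ≤ D := by
    have h1 : 0 ≤ C * (6 + E) := by positivity
    have h2 : 0 ≤ C ^ 2 := sq_nonneg C
    rw [hD]; linarith
  have hD0 : 0 < D := by linarith
  have hlD : 0 ≤ Real.log D := Real.log_nonneg (by linarith)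
  have hlD2 : C * Real.log D ≤ D / 2 := by
    have h1 : Real.log D ≤ Real.sqrt D := log_le_sqrt hD0
    have h2 : 2 * C ≤ Real.sqrt D := by
      refine Real.le_sqrt_of_sq_le ?_
      have h3 : 0 ≤ C * (6 + E) := by positivity
      rw [hD]; nlinarith
    have h4 : Real.sqrt D * Real.sqrt D = D := Real.mul_self_sqrt hD0.le
    have h5 : 0 ≤ Real.sqrt D := Real.sqrt_nonneg D
    nlinarith
  have hCE : C * (6 + E) ≤ D / 2 - 3 := by
    have h2 : 0 ≤ C ^ 2 := sq_nonneg C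
    rw [hD]; linarith
  refine ⟨C * (E + Real.log D + 6), by positivity, ?_⟩
  intro k y ρ r hy hk hρ hr hcρ
  have hy0 : 0 < y := by linarith
  have hly1 : 1 ≤ Real.log y := by
    rw [Real.le_log_iff_exp_le hy0]
    have := Real.exp_one_lt_d9
    linarith
  have hlyy : Real.log y ≤ y := by
    have := log_le_half hy0
    linarith
  have hly2 : Real.log y ^ 2 ≤ y := by
    have h1 := log_le_sqrt hy0
    have h2 : Real.sqrt y * Real.sqrt y = y := Real.mul_self_sqrt hy0.le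
    nlinarith [Real.sqrt_nonneg y]
  have hysq : 484 ≤ y ^ 2 := by
    have : (22 : ℝ) ^ 2 ≤ y ^ 2 := pow_le_pow_left₀ (by norm_num) hy 2
    norm_num at this
    exact this
  have hyy : 1 ≤ y ^ 2 * Real.log y := by
    have := mul_le_mul hysq hly1 zero_le_one (by positivity)
    linarith
  set μ : ℝ := min ρ 1 with hμ
  have hμ0 : 0 < μ := lt_min hρ one_pos
  have hμρ : μ ≤ ρ := min_le_left _ _
  have hμ1 : μ ≤ 1 := min_le_right _ _
  have hyl0 : 0 < y ^ 2 * Real.log y := by linarith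
  have hμc : c₁ / (y ^ 2 * Real.log y) ≤ μ := by
    refine le_min ?_ ?_
    · exact (div_le_div_of_nonneg_right hc1c hyl0.le).trans hcρ
    · rw [div_le_one hyl0]; linarith
  have hy3 : 1 ≤ y ^ 3 := by
    have : (1 : ℝ) ^ 3 ≤ y ^ 3 := pow_le_pow_left₀ (by norm_num) (by linarith) 3
    simpa using this
  set n : ℕ := ⌈D * y ^ 3⌉₊ with hn
  have hn1 : D * y ^ 3 ≤ n := Nat.le_ceil _
  have hn2 : (n : ℝ) ≤ D * y ^ 3 + 1 := (Nat.ceil_lt_add_one (by positivity)).le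
  have hDy : 1 ≤ D * y ^ 3 := by
    have := mul_le_mul hD7 hy3 zero_le_one (by linarith)
    linarith
  have hn3 : (n : ℝ) ≤ 2 * D * y ^ 3 := by linarith
  have hn0 : (1 : ℝ) ≤ n := hDy.trans hn1
  have hn0' : 1 ≤ n := by exact_mod_cast hn0
  set m : ℕ := ⌈2 * (n : ℝ) / μ⌉₊ with hm
  have hm1 : 2 * (n : ℝ) / μ ≤ m := Nat.le_ceil _
  have hm2 : (m : ℝ) ≤ 2 * n / μ + 1 := (Nat.ceil_lt_add_one (by positivity)).le
  have hnμ : 1 ≤ (n : ℝ) / μ := by
    rw [one_le_div hμ0]; linarith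
  have hm3 : (m : ℝ) ≤ 3 * n / μ := by
    have h1 : 2 * (n : ℝ) / μ = 2 * (n / μ) := by ring
    have h2 : 3 * (n : ℝ) / μ = 3 * (n / μ) := by ring
    rw [h2]; rw [h1] at hm2; linarith
  have hm0 : (1 : ℝ) ≤ m := by
    have h1 : 2 * (n : ℝ) / μ = 2 * (n / μ) := by ring
    rw [h1] at hm1
    linarith
  have hm0' : 1 ≤ m := by exact_mod_cast hm0
  have hm4 : (m : ℝ) ≤ 6 / c₁ * D * y ^ 6 := by
    have h1 : (n : ℝ) / μ ≤ (2 * D * y ^ 3) * (y ^ 2 * Real.log y) / c₁ := by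
      rw [div_le_div_iff₀ hμ0 hc1]
      have h2 : c₁ ≤ μ * (y ^ 2 * Real.log y) := by
        rw [div_le_iff₀ hyl0] at hμc
        exact hμc
      have h3 : 0 ≤ 2 * D * y ^ 3 := by positivity
      calc (n : ℝ) * c₁ ≤ (2 * D * y ^ 3) * (μ * (y ^ 2 * Real.log y)) :=
            mul_le_mul hn3 h2 hc1.le h3
        _ = 2 * D * y ^ 3 * (y ^ 2 * Real.log y) * μ := by ring
    have h2 : (2 * D * y ^ 3) * (y ^ 2 * Real.log y) / c₁ ≤ (2 * D * y ^ 3) * (y ^ 2 * y) / c₁ := by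
      gcongr
    calc (m : ℝ) ≤ 3 * n / μ := hm3
      _ = 3 * (n / μ) := by ring
      _ ≤ 3 * ((2 * D * y ^ 3) * (y ^ 2 * y) / c₁) := by
          have := h1.trans h2
          linarith
      _ = 6 / c₁ * D * y ^ 6 := by ring
  have hlm : Real.log m ≤ E + Real.log D + 6 * Real.log y := by
    have h6 : 0 < 6 / c₁ := by positivity
    have h1 : Real.log m ≤ Real.log (6 / c₁ * D * y ^ 6) :=
      Real.log_le_log (by linarith) hm4
    rw [Real.log_mul (by positivity) (by positivity), Real.log_mul h6.ne' hD0.ne',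
      Real.log_pow] at h1
    have h2 : Real.log (6 / c₁) ≤ E := le_abs_self _
    push_cast at h1
    linarith
  have hlm0 : 0 ≤ Real.log m := Real.log_nonneg hm0
  have hrl : (r : ℝ) * Real.log m ≤ C * (E + Real.log D + 6) * (y ^ 2 * Real.log y ^ 2) := by
    have h1 : E + Real.log D + 6 * Real.log y ≤ (E + Real.log D + 6) * Real.log y := by
      have : (E + Real.log D) * 1 ≤ (E + Real.log D) * Real.log y :=
        mul_le_mul_of_nonneg_left hly1 (by positivity)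
      linarith
    have h0 : 0 ≤ C * (y ^ 2 * Real.log y) := by positivity
    calc (r : ℝ) * Real.log m ≤ (C * (y ^ 2 * Real.log y)) * ((E + Real.log D + 6) * Real.log y) :=
          mul_le_mul hr (hlm.trans h1) hlm0 h0
      _ = C * (E + Real.log D + 6) * (y ^ 2 * Real.log y ^ 2) := by ring
  refine ⟨n, m, hn0', hm0', ?_, ?_, hrl⟩
  · rw [div_le_iff₀ (by linarith)]
    rw [div_le_iff₀ hμ0] at hm1
    have : (m : ℝ) * μ ≤ m * ρ := mul_le_mul_of_nonneg_left hμρ (by linarith)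
    linarith
  · have h1 : y ^ 2 * Real.log y ^ 2 ≤ y ^ 3 := by
      have : y ^ 2 * Real.log y ^ 2 ≤ y ^ 2 * y := mul_le_mul_of_nonneg_left hly2 (by positivity)
      linarith
    have h2 : C * (E + Real.log D + 6) ≤ D - 3 := by linarith
    have h3 : 0 ≤ C * (E + Real.log D + 6) := by positivity
    have h4 : (r : ℝ) * Real.log m ≤ (D - 3) * y ^ 3 := by
      refine hrl.trans ?_
      exact mul_le_mul h2 h1 (by positivity) (by linarith)
    have h5 : 14 + y ≤ 3 * y ^ 3 := by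
      have h51 : 484 * y ≤ y ^ 2 * y := mul_le_mul_of_nonneg_right hysq hy0.le
      have h52 : y ^ 2 * y = y ^ 3 := by ring
      linarith
    have h6 : 14 + 4 * k + r * Real.log m ≤ n := by
      have h61 : (D - 3) * y ^ 3 = D * y ^ 3 - 3 * y ^ 3 := by ring
      rw [h61] at h4
      linarith
    have hl4 : (1 : ℝ) ≤ Real.log 4 := by
      rw [show (4 : ℝ) = 2 ^ 2 by norm_num, Real.log_pow]
      have := Real.log_two_gt_d9
      push_cast
      linarith
    have h7 : (16384 * 72 : ℝ) ≤ Real.exp 14 := by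
      have := log_big
      rwa [Real.log_le_iff_le_exp (by norm_num)] at this
    have h8 : (m : ℝ) ^ r = Real.exp (r * Real.log m) := by
      rw [mul_comm, Real.exp_mul, Real.exp_log (by linarith), Real.rpow_natCast]
    have h9 : (4 : ℝ) ^ n = Real.exp (n * Real.log 4) := by
      rw [mul_comm, Real.exp_mul, Real.exp_log (by norm_num), Real.rpow_natCast]
    rw [h8, h9]
    calc 16384 * 72 * (Real.exp (4 * k) * Real.exp (r * Real.log m))
        ≤ Real.exp 14 * (Real.exp (4 * k) * Real.exp (r * Real.log m)) :=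
          mul_le_mul_of_nonneg_right h7 (by positivity)
      _ = Real.exp (14 + 4 * k + r * Real.log m) := by
          rw [Real.exp_add, Real.exp_add]; ring
      _ ≤ Real.exp (n * Real.log 4) := by
          refine Real.exp_le_exp.2 ?_
          have h10 : (n : ℝ) * 1 ≤ n * Real.log 4 := mul_le_mul_of_nonneg_left hl4 (by linarith)
          linarith

end Pool.Agent.H18.LQ
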