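import Pool.Agent.H18.LQ.QBase
import Pool.Agent.H18.LQ.Mod1
import Pool.Agent.H18.LQ.Mod2
import Pool.Agent.H18.LQ.Bc
import Pool.Agent.H18.LQ.Pb
import Pool.Agent.H18.LQ.Lf
import Pool.Agent.H18.LQ.Par
import Pool.Agent.H18.BSG

set_option autoImplicit false

open Finset
open scoped Pointwise

namespace Pool.Agent.H18.LQ

open Pool.Agent.H18

/-- Plünnecke with a real constant. -/
lemma plu {N : ℕ} [NeZero N] (A : Finset (ZMod N)) (hA : A.Nonempty) (K : ℝ)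
    (hAK : ((A - A).card : ℝ) ≤ K * A.card) (m n : ℕ) :
    (((m • A) - (n • A)).card : ℝ) ≤ K ^ (m + n) * A.card := by
  have hc : (0 : ℝ) < A.card := by exact_mod_cast hA.card_pos
  have h := pluennecke_ruzsa_inequality_nsmul_sub_nsmul_sub hA A m n
  have h1 : (((m • A) - (n • A)).card : ℝ) ≤ (((A - A).card : ℝ) / A.card) ^ (m + n) * A.card := by
    have h2 := (NNRat.cast_le (K := ℝ)).2 h
    push_cast at h2
    exact h2
  refine h1.trans ?_
  gcongr
  rw [div_le_iff₀ hc]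
  exact hAK

lemma nsmul_mono_zero {N : ℕ} [NeZero N] (X : Finset (ZMod N)) (h0 : (0 : ZMod N) ∈ X) (m n : ℕ)
    (h : m ≤ n) : m • X ⊆ n • X := by
  obtain ⟨d, rfl⟩ := Nat.exists_eq_add_of_le h
  induction d with
  | zero => simp
  | succ d ih =>
    refine (ih (by omega)).trans ?_
    rw [← add_assoc, succ_nsmul]
    intro x hx
    have := Finset.add_mem_add hx h0
    rwa [add_zero] at this

/-- The model lemma. -/
theorem model {N : ℕ} [NeZero N] (A : Finset (ZMod N)) (hA : A.Nonempty) :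
    ∃ (M : ℕ) (_ : NeZero M) (A₂ : Finset (ZMod N)) (φ : ZMod N → ZMod M),
      A₂ ⊆ A ∧ A₂.Nonempty ∧ A.card ≤ 72 * A₂.card ∧ 2 * A₂.card ≤ M ∧
      M ≤ 2 * ((6 • A) - (6 • A)).card + 1 ∧
      ∀ x y : Fin 6 → ZMod N, (∀ i, x i ∈ A₂) → (∀ i, y i ∈ A₂) →
        (∑ i, x i = ∑ i, y i ↔ ∑ i, φ (x i) = ∑ i, φ (y i)) := by
  obtain ⟨A₁, hA₁A, hA₁ne, hA₁c, D, hDc, hDc', hDN, hD⟩ := lift_int A hA
  obtain ⟨A₂, φ, hA₂A₁, hA₂ne, hA₂c, hφ⟩ := model_of_lift A₁ hA₁ne D hDN hD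
  have h1 : A₂.card ≤ A₁.card := Finset.card_le_card hA₂A₁
  exact ⟨2 * D.card + 1, inferInstance, A₂, φ, hA₂A₁.trans hA₁A, hA₂ne, by omega, by omega,
    by omega, hφ⟩

set_option maxHeartbeats 1000000 in
/-- Local form of the quadratic theorem for a set of small doubling. -/
theorem doubling_base :
    ∃ C : ℝ, 0 < C ∧ ∀ N : ℕ, ∀ _ : NeZero N, ∀ A : Finset (ZMod N), A.Nonempty →
      ∀ k : ℝ, 1 ≤ k → ((A - A).card : ℝ) ≤ Real.exp k * A.card →
      ∃ Γ : Finset (ZMod N),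
        (Γ.card : ℝ) ≤ 8 * Real.log ((N : ℝ) / A.card)
          + C * ((12 * k + 10) ^ 2 * Real.log (12 * k + 10) ^ 2) ∧
        ∀ ε : ℝ, Γ.card * ε ≤ 1 / 250 → ∀ x : ZMod N,
          (∀ γ ∈ Γ, |((γ * x).val : ℝ) / (N : ℝ)
            - ((round (((γ * x).val : ℝ) / (N : ℝ)) : ℤ) : ℝ)| ≤ ε) →
          ∃ a₁ ∈ A, ∃ a₂ ∈ A, ∃ a₃ ∈ A, ∃ a₄ ∈ A, x = a₁ + a₂ - a₃ - a₄ := by
  obtain ⟨C₀, hC₀, c₀, hc₀, hbase⟩ := QB.quad_base
  obtain ⟨C₁, hC₁, hpar⟩ := params_lq C₀ c₀ hC₀ hc₀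
  refine ⟨8 * C₁ + 32, by positivity, ?_⟩
  intro N _ A hA k hk hAK
  have hN : (0 : ℝ) < N := by exact_mod_cast Nat.pos_of_ne_zero (NeZero.ne N)
  have hc : (0 : ℝ) < A.card := by exact_mod_cast hA.card_pos
  set K : ℝ := Real.exp k with hK
  have hK1 : 1 ≤ K := Real.one_le_exp (by linarith)
  have hK0 : 0 < K := by linarith
  set y : ℝ := 12 * k + 10 with hy
  have hy22 : 22 ≤ y := by rw [hy]; linarith
  have hlogy : 1 ≤ Real.log y := by
    rw [Real.le_log_iff_exp_le (by linarith)]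
    have := Real.exp_one_lt_d9
    linarith
  -- the model
  obtain ⟨M, hMne, A₂, φ, hA₂A, hA₂ne, hA₂c, h2A₂, hMD, hφ⟩ := model A hA
  have hM0 : 0 < M := Nat.pos_of_ne_zero hMne.out
  have hMpos : (0 : ℝ) < M := by exact_mod_cast hM0
  have hAA₂ : (A.card : ℝ) ≤ 72 * A₂.card := by exact_mod_cast hA₂c
  have hc₂ : (0 : ℝ) < A₂.card := by exact_mod_cast hA₂ne.card_pos
  set E : Finset (ZMod M) := A₂.image φ with hE
  have hinj : Set.InjOn φ (A₂ : Set (ZMod N)) := by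
    intro a ha b hb hab
    obtain ⟨a₀, ha₀⟩ := hA₂ne
    have h2 := (hφ ![a, a₀, a₀, a₀, a₀, a₀] ![b, a₀, a₀, a₀, a₀, a₀] (by
        intro i
        fin_cases i <;> first | exact ha | exact ha₀) (by
        intro i
        fin_cases i <;> first | exact hb | exact ha₀)).2 (by
        rw [Fin.sum_univ_six, Fin.sum_univ_six]
        simp [hab])
    rw [Fin.sum_univ_six, Fin.sum_univ_six] at h2
    simpa using h2
  have hEc : E.card = A₂.card := Finset.card_image_of_injOn hinj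
  have hEne : E.Nonempty := hA₂ne.image φ
  have h2A₂M : 2 * (A₂.card : ℝ) ≤ M := by exact_mod_cast h2A₂
  have hdens : (E.card : ℝ) / (M : ℝ) ≤ 1 / 2 := by
    rw [hEc, div_le_iff₀ hMpos]; linarith
  have hMle : (M : ℝ) ≤ 216 * K ^ 12 * A₂.card := by
    have h1 := plu A hA K hAK 6 6
    have h4 : (1 : ℝ) ≤ A₂.card := by exact_mod_cast hA₂ne.card_pos
    have h5 : (1 : ℝ) ≤ K ^ 12 := one_le_pow₀ hK1
    have h6 : (M : ℝ) ≤ 2 * (((6 • A) - (6 • A)).card : ℝ) + 1 := by exact_mod_cast hMD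
    have h7 : K ^ 12 * (A.card : ℝ) ≤ K ^ 12 * (72 * A₂.card) := by gcongr
    have h8 : 1 ≤ K ^ 12 * (A₂.card : ℝ) := by
      calc (1 : ℝ) = 1 * 1 := by norm_num
        _ ≤ K ^ 12 * A₂.card := by gcongr
    norm_num at h1
    linarith
  set L : ℝ := Real.log ((M : ℝ) / (E.card : ℝ)) with hL
  have hLk : L ≤ 12 * k + 6 := by
    rw [hL, hEc]
    have h1 : (M : ℝ) / A₂.card ≤ 216 * K ^ 12 := by
      rw [div_le_iff₀ hc₂]; exact hMle
    have h2 := Real.log_le_log (by positivity) h1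
    rw [Real.log_mul (by norm_num) (by positivity), Real.log_pow, hK, Real.log_exp] at h2
    have h3 : Real.log 216 ≤ 6 := by
      rw [Real.log_le_iff_le_exp (by norm_num)]
      have h4 : Real.exp 6 = Real.exp 1 ^ 6 := by rw [← Real.exp_nat_mul]; norm_num
      rw [h4]
      have h5 : (2.7 : ℝ) ≤ Real.exp 1 := by
        have := Real.exp_one_gt_d9
        linarith
      calc (216 : ℝ) ≤ 2.7 ^ 6 := by norm_num
        _ ≤ Real.exp 1 ^ 6 := pow_le_pow_left₀ (by norm_num) h5 6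
    push_cast at h2
    linarith
  have hLlow : 1 / 2 ≤ L := by
    have h1 : (2 : ℝ) ≤ (M : ℝ) / E.card := by
      rw [hEc, le_div_iff₀ hc₂]; exact h2A₂M
    have h2 := Real.log_le_log (by norm_num) h1
    have h3 := Real.log_two_gt_d9
    rw [hL]; linarith
  obtain ⟨Γ', ρ, hρ, hΓ', hρ2, hincl'⟩ := hbase M hM0 E hEne hdens L hL
  have hL2y : L + 2 ≤ y := by rw [hy]; linarith
  have hLy : L ≤ y := by linarith
  have hmono : L ^ 2 * Real.log (L + 2) ≤ y ^ 2 * Real.log y := by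
    have h1 : Real.log (L + 2) ≤ Real.log y := Real.log_le_log (by linarith) hL2y
    have h2 : 0 ≤ Real.log (L + 2) := Real.log_nonneg (by linarith)
    gcongr
  have hposL : 0 < L ^ 2 * Real.log (L + 2) := by
    have h2 : 0 < Real.log (L + 2) := Real.log_pos (by linarith)
    positivity
  obtain ⟨n, m, hn1, hm1, hnm, hcond, hrm⟩ := hpar k y ρ Γ'.card hy22 (by rw [hy]; linarith) hρ
    (hΓ'.trans (by gcongr)) (le_trans (by gcongr) hρ2)
  have hmpos : (0 : ℝ) < m := by exact_mod_cast hm1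
  -- the small Bohr set
  set B' : Finset (ZMod M) := bohr Γ' (1 / (m : ℝ)) with hB'
  have hB'c : M ≤ m ^ Γ'.card * B'.card := bohr_card Γ' m hm1
  have hB'c' : (M : ℝ) ≤ (m : ℝ) ^ Γ'.card * B'.card := by exact_mod_cast hB'c
  obtain ⟨X, hX0, hXneg, hXc, hXl⟩ := pullback A₂ hA₂ne φ hφ (bohr Γ' ρ) B' (by
      intro x hx
      rw [mem_bohr] at hx
      obtain ⟨a₁, h1, a₂, h2, a₃, h3, a₄, h4, h5⟩ := hincl' x hx
      rw [h5, sub_sub]
      exact Finset.sub_mem_sub (Finset.add_mem_add h1 h2) (Finset.add_mem_add h3 h4))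
    (zero_mem_bohr _ _ (by positivity)) (neg_bohr _ _) (2 * n) (by omega) (by
      intro j hj
      refine (nsmul_bohr_subset Γ' _ j).trans (bohr_mono _ _ _ ?_)
      refine le_trans ?_ hnm
      rw [mul_one_div]
      have : (j : ℝ) ≤ 2 * (n : ℝ) := by exact_mod_cast hj
      gcongr)
  have hXc' : (M : ℝ) ≤ (m : ℝ) ^ Γ'.card * X.card := by rw [hXc]; exact hB'c'
  have hXpos : (0 : ℝ) < X.card := by exact_mod_cast Finset.card_pos.2 ⟨0, hX0⟩
  have hcardn : ((n • X).card : ℝ) ≤ K ^ 4 * A.card := by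
    have h1 : (n • X).card ≤ ((2 • A) - (2 • A)).card := by
      apply Finset.card_le_card
      refine (nsmul_mono_zero X hX0 n (2 * n) (by omega)).trans (hXl.trans ?_)
      rw [two_nsmul]
      exact Finset.sub_subset_sub (Finset.add_subset_add hA₂A hA₂A)
        (Finset.add_subset_add hA₂A hA₂A)
    have h2 := plu A hA K hAK 2 2
    have h3 : ((n • X).card : ℝ) ≤ (((2 • A) - (2 • A)).card : ℝ) := by exact_mod_cast h1
    exact h3.trans h2
  have hA₂X : (A₂.card : ℝ) ≤ (m : ℝ) ^ Γ'.card * X.card := by linarith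
  obtain ⟨Γ, hΓ, hincl⟩ := lfold X hX0 hXneg n hn1 (by
    calc 16384 * ((n • X).card : ℝ) ≤ 16384 * (K ^ 4 * A.card) := by gcongr
      _ ≤ 16384 * (K ^ 4 * (72 * ((m : ℝ) ^ Γ'.card * X.card))) := by
          gcongr
          linarith
      _ = (16384 * 72 * (K ^ 4 * (m : ℝ) ^ Γ'.card)) * X.card := by ring
      _ ≤ 4 ^ n * X.card := by
          gcongr
          have : K ^ 4 = Real.exp (4 * k) := by
            rw [hK, ← Real.exp_nat_mul]; norm_num
          rw [this]; exact hcond)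
  refine ⟨Γ, ?_, ?_⟩
  · have h1 : (N : ℝ) / X.card ≤ (N : ℝ) / A.card * 72 * (m : ℝ) ^ Γ'.card := by
      rw [div_le_iff₀ hXpos]
      calc (N : ℝ) = (N : ℝ) / A.card * A.card := by field_simp
        _ ≤ (N : ℝ) / A.card * (72 * ((m : ℝ) ^ Γ'.card * X.card)) := by
            gcongr
            linarith
        _ = _ := by ring
    have h2 := Real.log_le_log (by positivity) h1
    rw [Real.log_mul (by positivity) (by positivity), Real.log_mul (by positivity) (by norm_num),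
      Real.log_pow] at h2
    have h3 : Real.log 72 ≤ 5 := by
      rw [Real.log_le_iff_le_exp (by norm_num)]
      have h4 : Real.exp 5 = Real.exp 1 ^ 5 := by rw [← Real.exp_nat_mul]; norm_num
      rw [h4]
      have h5 : (2.7 : ℝ) ≤ Real.exp 1 := by
        have := Real.exp_one_gt_d9
        linarith
      calc (72 : ℝ) ≤ 2.7 ^ 5 := by norm_num
        _ ≤ Real.exp 1 ^ 5 := pow_le_pow_left₀ (by norm_num) h5 5
    have h6 : (22 : ℝ) ^ 2 * 1 ^ 2 ≤ y ^ 2 * Real.log y ^ 2 := by gcongr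
    have h7 : (8 * C₁ + 32) * (y ^ 2 * Real.log y ^ 2)
        = 8 * (C₁ * (y ^ 2 * Real.log y ^ 2)) + 32 * (y ^ 2 * Real.log y ^ 2) := by ring
    rw [h7]
    norm_num at h6
    linarith
  · intro ε hε x hx
    have h1 := hXl (hincl ε hε x hx)
    obtain ⟨u, hu, v, hv, huv⟩ := Finset.mem_sub.mp h1
    obtain ⟨a₁, h1, a₂, h2, rfl⟩ := Finset.mem_add.mp hu
    obtain ⟨a₃, h3, a₄, h4, rfl⟩ := Finset.mem_add.mp hv
    exact ⟨a₁, hA₂A h1, a₂, hA₂A h2, a₃, hA₂A h3, a₄, hA₂A h4, by rw [← huv]; ring⟩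

end Pool.Agent.H18.LQ
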