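import Pool.Agent.H18.LQ.Defs

/-! ROW Cr (about 150 lines, mostly copy and paste).  A bounded function with a small Fourier tail
outside of the large spectrum of a probability distribution is nearly constant on a Bohr set.

PROOF.  This is the first and middle part of the proof of `Pool.Agent.H18.bohr_of_noise` in
`Pool/Agent/H18/Quad.lean` (read it first): copy that proof, with
* `Sp`, `Γ` and the bound `(Γ.card : ℝ) ≤ 8 * (Real.log N - entT σ)` unchanged;
* `F`, `c`, `hrepF' := hF`, `hFb` now given by the hypotheses;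
* `htail z : ‖∑ γ ∈ Spᶜ, c γ * ee (γ * z)‖ ≤ 1 / 64`: by `norm_sum_le`, `norm_mul`, `norm_ee`,
  `mul_one` and the hypothesis `htail` (note `Spᶜ = univ.filter (‖wft σ γ‖ < 1 / 2)`,
  by `Finset.ext`, `Finset.mem_compl`, `Finset.mem_filter`, `not_le`);
* `hsplit`, `hθex`, `m`, `hbern`, `e3`, `e8` unchanged, giving
  `|F x - F 0| ≤ 27 * (m / N) * (65 / 64) + 1 / 64 + 1 / 64 ≤ 1 / 4`. -/

set_option autoImplicit false

open Finset ComplexConjugate
open scoped Pointwise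

namespace Pool.Agent.H18.LQ

open Pool.Agent.H18

theorem criterion {N : ℕ} [NeZero N] (σ : ZMod N → ℝ) (hσ : IsPr σ) (F : ZMod N → ℝ)
    (c : ZMod N → ℂ) (hF : Rep F c) (hFb : ∀ z, 0 ≤ F z ∧ F z ≤ 1)
    (htail : ∑ γ ∈ Finset.univ.filter (fun γ => ‖wft σ γ‖ < 1 / 2), ‖c γ‖ ≤ 1 / 64) :
    ∃ Γ : Finset (ZMod N), (Γ.card : ℝ) ≤ 8 * (Real.log N - entT σ) ∧
      ∀ ε : ℝ, Γ.card * ε ≤ 1 / 250 → ∀ x : ZMod N,
        (∀ γ ∈ Γ, |((γ * x).val : ℝ) / (N : ℝ)
          - ((round (((γ * x).val : ℝ) / (N : ℝ)) : ℤ) : ℝ)| ≤ ε) →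
        |F x - F 0| ≤ 1 / 4 := by
  classical
  have hN : (0 : ℝ) < N := by exact_mod_cast Nat.pos_of_ne_zero (NeZero.ne N)
  have hrepF' : ∀ z, (F z : ℂ) = ∑ γ, c γ * ee (γ * z) := hF
  -- the spectrum
  set Sp : Finset (ZMod N) := Finset.univ.filter (fun γ => (1 : ℝ) / 2 ≤ ‖wft σ γ‖) with hSp
  obtain ⟨Γ, hΓS, hΓc, hΓspan⟩ := Finset.exists_subset_addSpan_card_le_of_forall_addDissociated
    (s := Sp) (d := ⌊8 * (Real.log N - entT σ)⌋₊) (by
      intro Λ hΛ hdis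
      apply Nat.le_floor
      refine chang_measure σ hσ Λ hdis fun γ hγ => ?_
      have := hΛ hγ
      rw [hSp, Finset.mem_filter] at this
      exact this.2)
  refine ⟨Γ, ?_, ?_⟩
  · have h2 : 0 ≤ 8 * (Real.log N - entT σ) := by
      have h3 := ent_le_log_card σ hσ.1 hσ.2 Finset.univ (fun x _ => Finset.mem_univ x)
      rw [Finset.card_univ, ZMod.card] at h3
      have h4 : entT σ ≤ Real.log N := h3
      linarith
    exact (Nat.cast_le.mpr hΓc).trans (Nat.floor_le h2)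
  · intro ε hε x hx
    -- the tail
    have hSc : Spᶜ = Finset.univ.filter (fun γ => ‖wft σ γ‖ < 1 / 2) := by
      ext γ
      rw [Finset.mem_compl, hSp, Finset.mem_filter, Finset.mem_filter, and_iff_right (Finset.mem_univ γ),
        and_iff_right (Finset.mem_univ γ), not_le]
    have htail' : ∀ z, ‖∑ γ ∈ Spᶜ, c γ * ee (γ * z)‖ ≤ 1 / 64 := by
      intro z
      refine (norm_sum_le _ _).trans ?_
      rw [hSc]
      refine (le_of_eq ?_).trans htail
      refine Finset.sum_congr rfl fun γ _ => ?_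
      rw [norm_mul, norm_ee, mul_one]
    have hsplit : ∀ z, (F z : ℂ) = ∑ γ ∈ Sp, c γ * ee (γ * z) + ∑ γ ∈ Spᶜ, c γ * ee (γ * z) := by
      intro z
      rw [hrepF' z, Finset.sum_add_sum_compl]
    -- integer representatives
    have hθex : ∀ γ ∈ Sp, ∃ θ : ℤ, (θ : ZMod N) = γ * x ∧ |(θ : ℝ)| ≤ N / 250 := by
      intro γ hγ
      obtain ⟨θ, h1, h2⟩ := lift_bohr Γ ε x hx γ (hΓspan hγ)
      refine ⟨θ, h1, h2.trans ?_⟩
      calc (Γ.card : ℝ) * ε * N ≤ 1 / 250 * N := by gcongr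
        _ = N / 250 := by ring
    choose! θ hθ1 hθ2 using hθex
    set m : ℕ := N / 250 with hm
    have hm4 : 4 * m + 1 ≤ N := by
      have : 0 < N := Nat.pos_of_ne_zero (NeZero.ne N)
      omega
    have hmN : (m : ℝ) / N ≤ 1 / 250 := by
      rw [div_le_iff₀ hN]
      have : (m : ℝ) ≤ (N : ℝ) / 250 := by rw [hm]; exact_mod_cast Nat.cast_div_le
      linarith
    have hθm : ∀ γ ∈ Sp, |θ γ| ≤ m := by
      intro γ hγ
      have h1 := hθ2 γ hγ
      have h2 : ((|θ γ| : ℤ) : ℝ) ≤ (N : ℝ) / 250 := by rw [Int.cast_abs]; exact h1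
      have h3 : (|θ γ| : ℤ) = ((θ γ).natAbs : ℤ) := Int.abs_eq_natAbs _
      rw [h3] at h2 ⊢
      have h4 : (((θ γ).natAbs : ℕ) : ℝ) ≤ (N : ℝ) / 250 := by
        rw [Nat.cast_natAbs, Int.cast_abs]; exact h1
      have h5 : (θ γ).natAbs ≤ N / 250 := by
        rw [Nat.le_div_iff_mul_le (by norm_num)]
        rw [le_div_iff₀ (by norm_num)] at h4
        exact_mod_cast h4
      rw [hm]
      exact_mod_cast h5
    have hbern := bernstein (N := N) Sp c θ m hm4 hθm (65 / 64) (by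
      intro j
      have e1 : ∑ γ ∈ Sp, c γ * ee (j * (θ γ : ZMod N)) = ∑ γ ∈ Sp, c γ * ee (γ * (j * x)) := by
        refine Finset.sum_congr rfl fun γ hγ => ?_
        rw [hθ1 γ hγ]
        congr 2; ring
      rw [e1]
      have e2 : ∑ γ ∈ Sp, c γ * ee (γ * (j * x))
          = (F (j * x) : ℂ) - ∑ γ ∈ Spᶜ, c γ * ee (γ * (j * x)) := by
        rw [hsplit (j * x)]; ring
      rw [e2]
      refine (norm_sub_le _ _).trans ?_
      have e3 := htail' (j * x)
      have e4 : ‖(F (j * x) : ℂ)‖ ≤ 1 := by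
        rw [Complex.norm_real, Real.norm_eq_abs, abs_of_nonneg (hFb _).1]
        exact (hFb _).2
      linarith)
    have e1 : ∑ γ ∈ Sp, c γ * ee ((θ γ : ℤ) : ZMod N) = ∑ γ ∈ Sp, c γ * ee (γ * x) := by
      refine Finset.sum_congr rfl fun γ hγ => ?_
      rw [hθ1 γ hγ]
    have e2 : ∑ γ ∈ Sp, c γ = ∑ γ ∈ Sp, c γ * ee (γ * 0) := by
      refine Finset.sum_congr rfl fun γ _ => ?_
      rw [mul_zero, ee_zero, mul_one]
    rw [e1, e2] at hbern
    have e3 : ‖(F x : ℂ) - (F 0 : ℂ)‖ ≤ 27 * (m / N) * (65 / 64) + 1 / 64 + 1 / 64 := by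
      have e4 : (F x : ℂ) - (F 0 : ℂ)
          = (∑ γ ∈ Sp, c γ * ee (γ * x) - ∑ γ ∈ Sp, c γ * ee (γ * 0))
            + ∑ γ ∈ Spᶜ, c γ * ee (γ * x) - ∑ γ ∈ Spᶜ, c γ * ee (γ * 0) := by
        rw [hsplit x, hsplit 0]; ring
      rw [e4]
      refine (norm_sub_le _ _).trans ?_
      have e5 := norm_add_le (∑ γ ∈ Sp, c γ * ee (γ * x) - ∑ γ ∈ Sp, c γ * ee (γ * 0))
        (∑ γ ∈ Spᶜ, c γ * ee (γ * x))
      have e6 := htail' x
      have e7 := htail' 0
      linarith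
    rw [← Complex.ofReal_sub, Complex.norm_real, Real.norm_eq_abs] at e3
    have h9 : 27 * ((m : ℝ) / N) * (65 / 64) ≤ 27 * (1 / 250) * (65 / 64) := by gcongr
    norm_num at h9
    linarith

end Pool.Agent.H18.LQ
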