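import Pool.Agent.H18.Quad
import Pool.Agent.H33.QB.Multi

set_option autoImplicit false

open Finset
open scoped Pointwise

namespace Pool.Agent.H18.LQ

/-- Bohr set with frequencies `Γ` and radius `ρ`. -/
noncomputable def bohr {N : ℕ} [NeZero N] (Γ : Finset (ZMod N)) (ρ : ℝ) : Finset (ZMod N) :=
  Finset.univ.filter
    (fun x => ∀ γ ∈ Γ, Pool.Agent.H33.QB.nd (((γ * x).val : ℝ) / (N : ℝ)) ≤ ρ)

lemma mem_bohr {N : ℕ} [NeZero N] (Γ : Finset (ZMod N)) (ρ : ℝ) (x : ZMod N) :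
    x ∈ bohr Γ ρ ↔ ∀ γ ∈ Γ, Pool.Agent.H33.QB.nd (((γ * x).val : ℝ) / (N : ℝ)) ≤ ρ := by
  unfold bohr
  simp

/-- `nd` is subadditive. -/
lemma nd_add_le (a b : ℝ) :
    Pool.Agent.H33.QB.nd (a + b) ≤ Pool.Agent.H33.QB.nd a + Pool.Agent.H33.QB.nd b := by
  unfold Pool.Agent.H33.QB.nd
  have h := round_le (a + b) (round a + round b)
  refine h.trans ?_
  push_cast
  have : a + b - ((round a : ℝ) + (round b : ℝ)) = (a - round a) + (b - round b) := by ring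
  rw [this]
  exact abs_add_le _ _

lemma nd_neg (a : ℝ) : Pool.Agent.H33.QB.nd (-a) = Pool.Agent.H33.QB.nd a := by
  unfold Pool.Agent.H33.QB.nd
  apply le_antisymm
  · refine (round_le (-a) (-(round a))).trans ?_
    push_cast
    rw [← abs_neg]
    apply le_of_eq
    congr 1
    ring
  · have h := round_le a (-(round (-a)))
    refine h.trans ?_
    push_cast
    rw [← abs_neg]
    apply le_of_eq
    congr 1
    ring

lemma nd_nonneg (a : ℝ) : 0 ≤ Pool.Agent.H33.QB.nd a := abs_nonneg _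

/-- `nd (x.val / N)` depends only on an integer representative of `x`. -/
lemma nd_val_eq {N : ℕ} [NeZero N] (x : ZMod N) (z : ℤ) (h : (z : ZMod N) = x) :
    Pool.Agent.H33.QB.nd ((x.val : ℝ) / (N : ℝ)) = Pool.Agent.H33.QB.nd ((z : ℝ) / (N : ℝ)) := by
  have hN : (N : ℝ) ≠ 0 := by exact_mod_cast NeZero.ne N
  have h1 : ((x.val : ℤ) - z) % (N : ℤ) = 0 := by
    apply Int.emod_eq_zero_of_dvd
    rw [← ZMod.intCast_zmod_eq_zero_iff_dvd]
    push_cast
    rw [ZMod.natCast_zmod_val, h, sub_self]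
  obtain ⟨k, hk⟩ := Int.dvd_of_emod_eq_zero h1
  have h2 : ((x.val : ℤ) : ℝ) - (z : ℝ) = (N : ℝ) * k := by
    exact_mod_cast congrArg (fun t : ℤ => (t : ℝ)) hk
  have h3 : (x.val : ℝ) / (N : ℝ) = (z : ℝ) / N + k := by
    have : (x.val : ℝ) = z + N * k := by
      have h4 : ((x.val : ℤ) : ℝ) = (x.val : ℝ) := by push_cast; rfl
      rw [← h4]; linarith
    rw [this, add_div, mul_div_cancel_left₀ _ hN]
  rw [h3, Pool.Agent.H33.QB.nd_add_int]

lemma nd_val_add {N : ℕ} [NeZero N] (x y : ZMod N) :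
    Pool.Agent.H33.QB.nd (((x + y).val : ℝ) / (N : ℝ))
      ≤ Pool.Agent.H33.QB.nd ((x.val : ℝ) / (N : ℝ))
        + Pool.Agent.H33.QB.nd ((y.val : ℝ) / (N : ℝ)) := by
  rw [nd_val_eq (x + y) ((x.val : ℤ) + (y.val : ℤ)) (by push_cast; simp)]
  push_cast
  rw [add_div]
  exact nd_add_le _ _

lemma nd_val_neg {N : ℕ} [NeZero N] (x : ZMod N) :
    Pool.Agent.H33.QB.nd (((-x).val : ℝ) / (N : ℝ))
      = Pool.Agent.H33.QB.nd ((x.val : ℝ) / (N : ℝ)) := by
  rw [nd_val_eq (-x) (-(x.val : ℤ)) (by push_cast; simp)]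
  push_cast
  rw [neg_div]
  exact nd_neg _

lemma nd_zero : Pool.Agent.H33.QB.nd 0 = 0 := by
  unfold Pool.Agent.H33.QB.nd
  simp

lemma zero_mem_bohr {N : ℕ} [NeZero N] (Γ : Finset (ZMod N)) (ρ : ℝ) (hρ : 0 ≤ ρ) :
    (0 : ZMod N) ∈ bohr Γ ρ := by
  rw [mem_bohr]
  intro γ _
  rw [mul_zero, ZMod.val_zero, Nat.cast_zero, zero_div, nd_zero]
  exact hρ

lemma neg_bohr {N : ℕ} [NeZero N] (Γ : Finset (ZMod N)) (ρ : ℝ) : -(bohr Γ ρ) = bohr Γ ρ := by
  ext x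
  rw [Finset.mem_neg', mem_bohr, mem_bohr]
  constructor
  · intro h γ hγ
    have := h γ hγ
    rwa [mul_neg, nd_val_neg] at this
  · intro h γ hγ
    rw [mul_neg, nd_val_neg]
    exact h γ hγ

/-- Sums of `j` elements of a Bohr set lie in the Bohr set of `j` times the radius. -/
lemma nsmul_bohr_subset {N : ℕ} [NeZero N] (Γ : Finset (ZMod N)) (ρ : ℝ) (j : ℕ) :
    j • (bohr Γ ρ) ⊆ bohr Γ (j * ρ) := by
  induction j with
  | zero =>
    rw [zero_nsmul]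
    intro x hx
    rw [Finset.mem_zero] at hx
    rw [hx]
    exact zero_mem_bohr Γ _ (by simp)
  | succ j ih =>
    rw [succ_nsmul]
    intro x hx
    obtain ⟨y, hy, z, hz, rfl⟩ := Finset.mem_add.mp hx
    have hy' := (mem_bohr _ _ _).mp (ih hy)
    have hz' := (mem_bohr _ _ _).mp hz
    rw [mem_bohr]
    intro γ hγ
    rw [mul_add]
    refine (nd_val_add _ _).trans ?_
    have h1 := hy' γ hγ
    have h2 := hz' γ hγ
    push_cast
    linarith

lemma bohr_mono {N : ℕ} [NeZero N] (Γ : Finset (ZMod N)) (ρ ρ' : ℝ) (h : ρ ≤ ρ') :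
    bohr Γ ρ ⊆ bohr Γ ρ' := by
  intro x hx
  rw [mem_bohr] at hx ⊢
  exact fun γ hγ => (hx γ hγ).trans h

end Pool.Agent.H18.LQ
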