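import Mathlib

/-! ROW Dil (about 90 lines).  A good dilation modulo a prime (Ruzsa).

PROOF.  Let `U = Finset.Ico 1 q` (natural numbers `1, ..., q - 1`), `U.card = q - 1`.  For `d ∈ D`,
`d ≠ 0`, let `Bad d` be the set of `s ∈ U` with `(M : ℤ) ∣ (s * d) % q` or
`(M : ℤ) ∣ q - (s * d) % q`.
For fixed `d`, `q ∤ d` (as `0 < |d| < q`), so the map `s ↦ (s * d) % q` is injective from `U` to
`{1, ..., q - 1}` (if `s d ≡ s' d` mod the prime `q` then `q ∣ s - s'`, `|s - s'| < q`; the value `0`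
is impossible since `q ∤ s`, `q ∤ d`).  The number of multiples of `M` in `{1, ..., q - 1}` is
`(q - 1) / M`  (`Nat.card_multiples` or `Nat.Ioc_filter_dvd_card_eq_div`), so at most `(q - 1) / M`
elements `s` satisfy the first condition; the same for `s ↦ q - (s * d) % q`, also injective
with values in `{1, ..., q - 1}`.  Hence `(Bad d).card ≤ 2 * ((q - 1) / M)`.
The union of the `Bad d`, `d ∈ D \ {0}`, has at most `D.card * (2 * ((q - 1) / M))` elements
(`Finset.card_biUnion_le`), and `M * (D.card * (2 * ((q - 1) / M))) ≤ 2 * D.card * (q - 1)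
< M * (q - 1)` since `2 * D.card < M` and `q - 1 ≥ 1`; so the union has less than `q - 1 = U.card`
elements and some `s ∈ U` is outside of it. -/

set_option autoImplicit false

open Finset

namespace Pool.Agent.H18.LQ

theorem card_bad_Dil (q M : ℕ) (φ : ℕ → ℤ) (hφ : ∀ s ∈ Finset.Ico 1 q, 1 ≤ φ s ∧ φ s ≤ (q : ℤ) - 1)
    (hinj : ∀ s ∈ Finset.Ico 1 q, ∀ t ∈ Finset.Ico 1 q, φ s = φ t → s = t) :
    ((Finset.Ico 1 q).filter (fun s => (M : ℤ) ∣ φ s)).card ≤ (q - 1) / M := by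
  rw [← Nat.Ioc_filter_dvd_card_eq_div]
  apply Finset.card_le_card_of_injOn (fun s => (φ s).toNat)
  · intro s hs
    obtain ⟨hs1, hs2⟩ := Finset.mem_filter.1 (Finset.mem_coe.1 hs)
    obtain ⟨h1, h2⟩ := hφ s hs1
    have h3 : ((φ s).toNat : ℤ) = φ s := Int.toNat_of_nonneg (by omega)
    rw [Finset.mem_coe, Finset.mem_filter, Finset.mem_Ioc]
    have h4 : 0 < (φ s).toNat ∧ (φ s).toNat ≤ q - 1 := by
      rw [Finset.mem_Ico] at hs1
      omega
    refine ⟨h4, ?_⟩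
    apply Int.natCast_dvd_natCast.1
    rw [h3]
    exact hs2
  · intro s hs t ht hst
    obtain ⟨hs1, -⟩ := Finset.mem_filter.1 (Finset.mem_coe.1 hs)
    obtain ⟨ht1, -⟩ := Finset.mem_filter.1 (Finset.mem_coe.1 ht)
    obtain ⟨h1, h2⟩ := hφ s hs1
    obtain ⟨h3, h4⟩ := hφ t ht1
    apply hinj s hs1 t ht1
    have h5 : (φ s).toNat = (φ t).toNat := hst
    omega

theorem exists_dilate (D : Finset ℤ) (q : ℕ) (hq : q.Prime) (hDq : ∀ d ∈ D, |d| < (q : ℤ))
    (M : ℕ) (hM : 2 * D.card < M) :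
    ∃ s : ℤ, ∀ d ∈ D, d ≠ 0 →
      ¬ ((M : ℤ) ∣ (s * d) % (q : ℤ)) ∧ ¬ ((M : ℤ) ∣ (q : ℤ) - (s * d) % (q : ℤ)) := by
  classical
  have hq2 := hq.two_le
  have hqp : Prime (q : ℤ) := Nat.prime_iff_prime_int.1 hq
  have hnd : ∀ d : ℤ, |d| < (q : ℤ) → d ≠ 0 → ¬ (q : ℤ) ∣ d := by
    intro d hd hd0 hdvd
    exact hd0 (Int.eq_zero_of_abs_lt_dvd hdvd hd)
  have hrange : ∀ d ∈ D, d ≠ 0 → ∀ s ∈ Finset.Ico 1 q,
      1 ≤ ((s : ℤ) * d) % (q : ℤ) ∧ ((s : ℤ) * d) % (q : ℤ) ≤ (q : ℤ) - 1 := by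
    intro d hd hd0 s hs
    rw [Finset.mem_Ico] at hs
    have h1 := Int.emod_nonneg ((s : ℤ) * d) (show (q : ℤ) ≠ 0 by positivity)
    have h2 := Int.emod_lt_of_pos ((s : ℤ) * d) (show (0 : ℤ) < q by positivity)
    have h3 : ((s : ℤ) * d) % (q : ℤ) ≠ 0 := by
      intro h0
      rcases hqp.dvd_or_dvd (Int.dvd_of_emod_eq_zero h0) with h | h
      · have h4 := Nat.le_of_dvd (by omega) (Int.natCast_dvd_natCast.1 h)
        omega
      · exact hnd d (hDq d hd) hd0 h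
    omega
  have hinj : ∀ d ∈ D, d ≠ 0 → ∀ s ∈ Finset.Ico 1 q, ∀ t ∈ Finset.Ico 1 q,
      ((s : ℤ) * d) % (q : ℤ) = ((t : ℤ) * d) % (q : ℤ) → s = t := by
    intro d hd hd0 s hs t ht hst
    rw [Finset.mem_Ico] at hs ht
    have h1 : (q : ℤ) ∣ ((s : ℤ) - t) * d := by
      have := Int.dvd_of_emod_eq_zero (Int.emod_eq_emod_iff_emod_sub_eq_zero.1 hst)
      rwa [← sub_mul] at this
    rcases hqp.dvd_or_dvd h1 with h | h
    · have h4 : (s : ℤ) - t = 0 := Int.eq_zero_of_abs_lt_dvd h (by rw [abs_lt]; omega)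
      omega
    · exact absurd h (hnd d (hDq d hd) hd0)
  let bad : ℤ → Finset ℕ := fun d =>
    (Finset.Ico 1 q).filter (fun s : ℕ => (M : ℤ) ∣ ((s : ℤ) * d) % (q : ℤ)) ∪
    (Finset.Ico 1 q).filter (fun s : ℕ => (M : ℤ) ∣ (q : ℤ) - ((s : ℤ) * d) % (q : ℤ))
  have hbad : ∀ d ∈ D.filter (fun d => d ≠ 0), (bad d).card ≤ 2 * ((q - 1) / M) := by
    intro d hd
    obtain ⟨hd1, hd2⟩ := Finset.mem_filter.1 hd
    have h1 := card_bad_Dil q M (fun s : ℕ => ((s : ℤ) * d) % (q : ℤ)) (hrange d hd1 hd2) (hinj d hd1 hd2)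
    have h2 := card_bad_Dil q M (fun s : ℕ => (q : ℤ) - ((s : ℤ) * d) % (q : ℤ))
      (fun s hs => by
        obtain ⟨a, b⟩ := hrange d hd1 hd2 s hs
        constructor <;> omega)
      (fun s hs t ht hst => hinj d hd1 hd2 s hs t ht (by omega))
    have h3 := Finset.card_union_le
      ((Finset.Ico 1 q).filter (fun s : ℕ => (M : ℤ) ∣ ((s : ℤ) * d) % (q : ℤ)))
      ((Finset.Ico 1 q).filter (fun s : ℕ => (M : ℤ) ∣ (q : ℤ) - ((s : ℤ) * d) % (q : ℤ)))
    simp only [bad]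
    omega
  have hcard : ((D.filter (fun d => d ≠ 0)).biUnion bad).card < (Finset.Ico 1 q).card := by
    have h1 : ((D.filter (fun d => d ≠ 0)).biUnion bad).card ≤
        (D.filter (fun d => d ≠ 0)).card * (2 * ((q - 1) / M)) :=
      Finset.card_biUnion_le_card_mul _ _ _ hbad
    have h2 : (D.filter (fun d => d ≠ 0)).card ≤ D.card := Finset.card_filter_le _ _
    have h3 : M * ((q - 1) / M) ≤ q - 1 := Nat.mul_div_le _ _
    rw [Nat.card_Ico]
    have h4 : (D.filter (fun d => d ≠ 0)).card * (2 * ((q - 1) / M)) ≤ D.card * (2 * ((q - 1) / M)) :=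
      Nat.mul_le_mul_right _ h2
    have h5 : D.card * (2 * ((q - 1) / M)) < q - 1 := by
      by_contra hcon
      push Not at hcon
      have hM0 : 0 < M := by omega
      have h6 : M * (D.card * (2 * ((q - 1) / M))) ≤ (2 * D.card) * (q - 1) := by
        calc M * (D.card * (2 * ((q - 1) / M))) = (2 * D.card) * (M * ((q - 1) / M)) := by ring
          _ ≤ (2 * D.card) * (q - 1) := Nat.mul_le_mul_left _ h3
      have h7 : M * (q - 1) ≤ M * (D.card * (2 * ((q - 1) / M))) := Nat.mul_le_mul_left _ hcon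
      have h8 : (2 * D.card) * (q - 1) < M * (q - 1) := Nat.mul_lt_mul_of_pos_right hM (by omega)
      omega
    omega
  obtain ⟨s, hs1, hs2⟩ := Finset.exists_mem_notMem_of_card_lt_card hcard
  refine ⟨(s : ℤ), fun d hd hd0 => ?_⟩
  rw [Finset.mem_biUnion] at hs2
  push Not at hs2
  have h1 := hs2 d (Finset.mem_filter.2 ⟨hd, hd0⟩)
  simp only [bad, Finset.mem_union, Finset.mem_filter, not_or, not_and] at h1
  exact ⟨h1.1 hs1, h1.2 hs1⟩

end Pool.Agent.H18.LQ
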