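import Pool.Agent.H18.Quad

set_option autoImplicit false

open Finset
open scoped Pointwise

namespace Pool.Agent.H18.LQ.QB

open Pool.Agent.H18

lemma Qf_start {N : ℕ} [NeZero N] (A : Finset (ZMod N)) (hA : A.Nonempty) :
    Qf (gA A) (unif (-A)) (unif A) = 1 := by
  unfold Qf
  have h1 : ∀ x w : ZMod N, unif (-A) x * unif A w * gA A (x + w)
      = unif (-A) x * unif A w := by
    intro x w
    by_cases hx : x ∈ -A
    · by_cases hw : w ∈ A
      · have h2 : x + w ∈ A - A := by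
          rw [Finset.mem_neg'] at hx
          exact Finset.mem_sub.mpr ⟨w, hw, -x, hx, by ring⟩
        unfold gA
        rw [if_pos h2, mul_one]
      · have : unif A w = 0 := by unfold unif; rw [if_neg hw]
        rw [this]; ring
    · have : unif (-A) x = 0 := by unfold unif; rw [if_neg hx]
      rw [this]; ring
  simp_rw [h1, ← Finset.mul_sum, sum_unif A hA, mul_one]
  exact sum_unif _ hA.neg

set_option maxHeartbeats 1000000 in
/-- Radius of order `1 / rank`. -/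
theorem quad_base :
    ∃ C : ℝ, 0 < C ∧ ∃ c : ℝ, 0 < c ∧
      ∀ N : ℕ, 0 < N → ∀ A : Finset (ZMod N), A.Nonempty →
        (A.card : ℝ) / (N : ℝ) ≤ 1 / 2 →
        ∀ L : ℝ, L = Real.log ((N : ℝ) / (A.card : ℝ)) →
          ∃ Γ : Finset (ZMod N), ∃ ε : ℝ, 0 < ε ∧
            (Γ.card : ℝ) ≤ C * (L ^ 2 * Real.log (L + 2)) ∧
            c / (L ^ 2 * Real.log (L + 2)) ≤ ε ∧
            ∀ x : ZMod N,
              (∀ γ ∈ Γ,
                |((γ * x).val : ℝ) / (N : ℝ) - ((round (((γ * x).val : ℝ) / (N : ℝ)) : ℤ) : ℝ)|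
                  ≤ ε) →
              ∃ a₁ ∈ A, ∃ a₂ ∈ A, ∃ a₃ ∈ A, ∃ a₄ ∈ A, x = a₁ + a₂ - a₃ - a₄ := by
  refine ⟨50000, by norm_num, 1 / (250 * 50008), by norm_num, ?_⟩
  intro N hN0 A hA hdens L hL
  have : NeZero N := ⟨hN0.ne'⟩
  have hN : (0 : ℝ) < N := by exact_mod_cast hN0
  have hc : (0 : ℝ) < A.card := by exact_mod_cast hA.card_pos
  have hLlow : 1 / 2 ≤ L := by
    have h1 : (2 : ℝ) ≤ (N : ℝ) / A.card := by
      rw [le_div_iff₀ hc]
      rw [div_le_iff₀ hN] at hdens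
      linarith
    have h2 := Real.log_le_log (by norm_num) h1
    have h3 := Real.log_two_gt_d9
    rw [hL]; linarith
  have hL0 : 0 < L := by linarith
  have hLdiff : L = Real.log N - Real.log A.card := by
    rw [hL, Real.log_div hN.ne' hc.ne']
  -- the state
  have huA : IsPr (unif A) := ⟨unif_nonneg _, sum_unif _ hA⟩
  have hunA : IsPr (unif (-A)) := ⟨unif_nonneg _, sum_unif _ hA.neg⟩
  have hΛ0 : 0 < 16 * L := by positivity
  obtain ⟨ν₁, ν₂, hν₁, hν₂, hgain, hst⟩ := exists_state (unif (-A)) (unif A) (gA A) (16 * L)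
    hunA huA hΛ0.le (gA_nonneg A) (gA_le_one A)
  set π := cnv ν₁ (unif (-A)) with hπ
  set ω := cnv ν₂ (unif A) with hω
  have hπP : IsPr π := hν₁.cnv hunA
  have hωP : IsPr ω := hν₂.cnv huA
  have hentA : entT (unif A) = Real.log A.card := ent_unif A hA
  have hentnA : entT (unif (-A)) = Real.log A.card := by
    have := ent_unif (-A) hA.neg
    rw [Finset.card_neg] at this
    exact this
  have hle : ∀ p : ZMod N → ℝ, IsPr p → entT p ≤ Real.log N := by
    intro p hp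
    have h3 := ent_le_log_card p hp.1 hp.2 Finset.univ (fun x _ => Finset.mem_univ x)
    rw [Finset.card_univ, ZMod.card] at h3
    exact h3
  have hQ : 7 / 8 ≤ Qf (gA A) π ω := by
    rw [Qf_start A hA, hentA, hentnA] at hgain
    have h1 := hle π hπP
    have h2 := hle ω hωP
    have h3 : 16 * L * (7 / 8) ≤ 16 * L * Qf (gA A) π ω := by linarith
    exact le_of_mul_le_mul_left h3 hΛ0
  have hLπ : Real.log (Fintype.card (ZMod N)) - entT π ≤ L := by
    rw [ZMod.card]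
    have h1 : entT (unif (-A)) ≤ entT π := ent_le_ent_cnv _ _ hν₁.1 hν₁.2 hunA.1
    rw [hentnA] at h1
    linarith
  -- parameters
  set n : ℕ := ⌈L⌉₊ + 3 with hn
  have hn0 : 0 < n := by omega
  have hnL : (n : ℝ) ≤ L + 4 := by
    have := (Nat.ceil_lt_add_one hL0.le).le
    rw [hn]; push_cast; linarith
  have hK4 : (N : ℝ) / A.card ≤ 4 ^ n / 64 := by
    have h1 : (4 : ℝ) ^ n / 64 = 4 ^ ⌈L⌉₊ := by rw [hn, pow_add]; norm_num
    rw [h1]
    have h2 : (N : ℝ) / A.card = Real.exp L := by rw [hL, Real.exp_log (by positivity)]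
    rw [h2]
    have h3 : Real.exp L ≤ Real.exp (⌈L⌉₊ : ℝ) := Real.exp_le_exp.mpr (Nat.le_ceil L)
    have h4 : Real.exp (⌈L⌉₊ : ℝ) = (Real.exp 1) ^ ⌈L⌉₊ := by
      rw [← Real.exp_nat_mul, mul_one]
    have h5 : Real.exp 1 ≤ 4 := by
      have := Real.exp_one_lt_d9
      linarith
    refine h3.trans ?_
    rw [h4]
    exact pow_le_pow_left₀ (Real.exp_pos _).le h5 _
  have hAK : ((A - A).card : ℝ) ≤ (N : ℝ) / A.card * A.card := by
    rw [div_mul_cancel₀ _ hc.ne']
    have := Finset.card_le_univ (A - A)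
    rw [ZMod.card] at this
    exact_mod_cast this
  set i : ℕ := Nat.log 2 (8 * n) + 1 with hi
  have hi1 : 8 * n < 2 ^ i := Nat.lt_pow_succ_log_self (by norm_num) _
  have hi2 : 2 ^ (i - 1) ≤ 8 * n := by
    have : i - 1 = Nat.log 2 (8 * n) := by omega
    rw [this]
    exact Nat.pow_log_le_self 2 (by omega)
  obtain ⟨σ, hσ, hmi, -, hdef⟩ := exists_noise π ω hπP hωP (16 * L) L hΛ0 hLπ hst i
  rw [ZMod.card] at hdef
  have hlog2 := Real.log_two_gt_d9
  have hlog2' := Real.log_two_lt_d9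
  -- the expectation after the noise
  have hQn : 3 / 5 ≤ Qf ((smo σ)^[n] (gA A)) π ω := by
    have h1 := (Qf_iter σ π ω hσ hπP hωP (gA A) (gA_nonneg A) (gA_le_one A) n).2
    have h2 : (n : ℝ) * Real.sqrt (mi (jnt σ π ω)) ≤ 1 / 8 := by
      have h3 : (n : ℝ) * Real.sqrt (mi (jnt σ π ω)) ≤ n * (1 / 2) ^ i := by gcongr
      refine h3.trans ?_
      have h4 : (8 * (n : ℝ)) ≤ 2 ^ i := by exact_mod_cast hi1.le
      rw [one_div, inv_pow]
      rw [← div_eq_mul_inv, div_le_div_iff₀ (by positivity) (by norm_num)]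
      linarith
    linarith
  obtain ⟨Γ, hΓ, hincl⟩ := bohr_of_noise A hA ν₁ ν₂ σ hν₁ hν₂ hσ n ((N : ℝ) / A.card) hAK hK4 hQn
  -- bounds
  set ℓ : ℝ := Real.log (L + 2) with hℓ
  have hℓ1 : 1 / 2 ≤ ℓ := by
    have h1 : Real.log 2 ≤ ℓ := Real.log_le_log (by norm_num) (by linarith)
    linarith
  have hi3 : (i : ℝ) ≤ 12 * ℓ := by
    have h1 : ((2 : ℝ)) ^ (i - 1) ≤ 16 * (L + 2) := by
      have h2 : ((2 : ℝ)) ^ (i - 1) ≤ 8 * n := by exact_mod_cast hi2
      linarith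
    have h3 := Real.log_le_log (by positivity) h1
    rw [Real.log_pow, Real.log_mul (by norm_num) (by linarith), ← hℓ] at h3
    have h4 : Real.log 16 = 4 * Real.log 2 := by
      rw [show (16 : ℝ) = 2 ^ 4 by norm_num, Real.log_pow]; norm_num
    rw [h4] at h3
    have h5 : ((i - 1 : ℕ) : ℝ) = (i : ℝ) - 1 := by
      have : 1 ≤ i := by omega
      push_cast [Nat.cast_sub this]; ring
    rw [h5] at h3
    have h6 : ((i : ℝ) - 5) * Real.log 2 ≤ ℓ := by linarith
    have h7 : (i : ℝ) - 5 ≤ 2 * ℓ := by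
      by_contra h
      push Not at h
      have h8 : 2 * ℓ * Real.log 2 < ((i : ℝ) - 5) * Real.log 2 :=
        mul_lt_mul_of_pos_right h (by linarith)
      have h9 : 2 * ℓ * (1 / 2) ≤ 2 * ℓ * Real.log 2 :=
        mul_le_mul_of_nonneg_left (by linarith) (by linarith)
      linarith
    linarith
  have hΓ2 : (Γ.card : ℝ) ≤ 50000 * (L ^ 2 * ℓ) := by
    have h1 : 8 * (L * (16 * L) + 2 * i * (16 * L) ^ 2) = L ^ 2 * (128 + 4096 * i) := by ring
    have h2 : (Γ.card : ℝ) ≤ L ^ 2 * (128 + 4096 * i) := by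
      rw [← h1]; linarith
    refine h2.trans ?_
    have h3 : 128 + 4096 * (i : ℝ) ≤ 50000 * ℓ := by linarith
    calc L ^ 2 * (128 + 4096 * i) ≤ L ^ 2 * (50000 * ℓ) := by gcongr
      _ = _ := by ring
  have hX : 1 / 8 ≤ L ^ 2 * ℓ := by
    have h1 : 1 / 4 ≤ L ^ 2 := by
      have := pow_le_pow_left₀ (by norm_num : (0 : ℝ) ≤ 1 / 2) hLlow 2
      norm_num at this ⊢
      linarith
    calc (1 : ℝ) / 8 = 1 / 4 * (1 / 2) := by norm_num
      _ ≤ L ^ 2 * ℓ := by gcongr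
  have hX0 : 0 < L ^ 2 * ℓ := by linarith
  have hΓ0 : (0 : ℝ) ≤ Γ.card := Nat.cast_nonneg _
  refine ⟨Γ, 1 / (250 * (Γ.card + 1)), by positivity, hΓ2, ?_, ?_⟩
  · rw [div_div, div_le_div_iff₀ (by positivity) (by positivity)]
    linarith
  · intro x hx
    exact hincl (1 / (250 * (Γ.card + 1))) (by
      rw [mul_one_div, div_le_div_iff₀ (by positivity) (by norm_num)]
      linarith) x hx

end Pool.Agent.H18.LQ.QB
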